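import Mathlib
import Pool.Agent.P.MP_5347d0_lc.DDefs

-- part Pool.Agent.P.MP_5347d0_lc.DChar
section

/-! Multiplicative functions modulo `f` and modulo a power of three with values in a field. -/

namespace Pool.Agent.P.MP_5347d0_lc.Dio

open Finset

theorem lte (γ β j : ℕ) (hγ : 1 ≤ γ) :
    ∃ u, (1 + 3 ^ γ * β) ^ 3 ^ j = 1 + 3 ^ (γ + j) * (β * u) ∧ ¬ 3 ∣ u := by
  induction j with
  | zero => exact ⟨1, by simp, by norm_num⟩
  | succ j ih =>
    obtain ⟨u, hu, h3⟩ := ih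
    obtain ⟨c, hc⟩ : ∃ c, γ + j = c + 1 := ⟨γ + j - 1, by omega⟩
    refine ⟨u * (1 + 3 * (3 ^ c * (β * u) + 3 ^ (2 * c) * (β * u) ^ 2)), ?_, ?_⟩
    · rw [pow_succ 3 j, pow_mul, hu, ← add_assoc γ j 1, hc]
      ring
    · intro h
      rcases (Nat.Prime.dvd_mul Nat.prime_three).1 h with h | h
      · exact h3 h
      · omega

theorem pw (γ c s n : ℕ) (h : n ≤ 2 * γ) :
    (1 + 3 ^ γ * c) ^ s ≡ 1 + 3 ^ γ * (c * s) [MOD 3 ^ n] := by
  induction s with
  | zero => simp [Nat.ModEq]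
  | succ s ih =>
    rw [pow_succ]
    refine (ih.mul_right _).trans ?_
    obtain ⟨e, he⟩ := Nat.exists_eq_add_of_le h
    have e1 : (1 + 3 ^ γ * (c * s)) * (1 + 3 ^ γ * c) =
        1 + 3 ^ γ * (c * (s + 1)) + 3 ^ n * (3 ^ e * (c * s * c)) := by
      rw [← mul_assoc (3 ^ n), ← pow_add, ← he]
      ring
    rw [e1]
    exact Nat.add_mul_mod_self_left _ _ _

theorem sq_eq {y : ℕ} (hy : ¬ 3 ∣ y) : ∃ β, y ^ 2 = 1 + 3 ^ 1 * β := by
  have h : y % 3 = 1 ∨ y % 3 = 2 := by omega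
  have h1 : y ^ 2 % 3 = 1 := by
    rcases h with h | h <;> simp [Nat.pow_mod, h]
  exact ⟨y ^ 2 / 3, by omega⟩

theorem sum_shift {k : Type} [AddCommGroup k] (F : ℕ → k) (T : ℕ) (h : ∀ s, F (s + T) = F s)
    (σ : ℕ) : ∑ s ∈ range T, F (s + σ) = ∑ s ∈ range T, F s := by
  induction σ with
  | zero => simp
  | succ σ ih =>
    rw [← ih]
    have h1 := sum_range_succ (fun s => F (s + σ)) T
    have h2 := sum_range_succ' (fun s => F (s + σ)) T
    have h3 : F (T + σ) = F (0 + σ) := by rw [zero_add, add_comm, h]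
    rw [h1, h3] at h2
    have h4 := add_right_cancel h2
    rw [h4]
    exact sum_congr rfl fun s _ => by rw [add_assoc, add_comm 1 σ]

/-- a pair of multiplicative functions -/
structure Ch (k : Type) [Field k] (f n : ℕ) where
  ψ : ℕ →* k
  θ : ℕ →* k
  hψ : ∀ i j, i ≡ j [MOD f] → ψ i = ψ j
  hθ : ∀ i j, i ≡ j [MOD 3 ^ (n + 1)] → θ i = θ j
  three : θ 3 = 0
  faith : ∀ β, ¬ 3 ∣ β → θ (1 + 3 ^ n * β) ≠ 1
  even : ψ (f * 3 ^ (n + 1) - 1) * θ (f * 3 ^ (n + 1) - 1) = 1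

variable {k : Type} [Field k] {f n : ℕ} (c : Ch k f n)

theorem Ch.one_add (β : ℕ) : c.θ (1 + 3 ^ (n + 1) * β) = 1 := by
  rw [c.hθ _ 1 (Nat.add_mul_mod_self_left _ _ _), map_one]

theorem Ch.dvd {i : ℕ} (hi : 3 ∣ i) : c.θ i = 0 := by
  obtain ⟨j, rfl⟩ := hi
  rw [map_mul, c.three, zero_mul]

theorem Ch.faith' {γ β : ℕ} (h1 : 1 ≤ γ) (h2 : γ ≤ n) (hβ : ¬ 3 ∣ β) :
    c.θ (1 + 3 ^ γ * β) ≠ 1 := by
  obtain ⟨j, rfl⟩ := Nat.exists_eq_add_of_le h2
  obtain ⟨u, hu, h3⟩ := lte γ β j h1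
  intro h
  refine c.faith (β * u) (fun h4 => ?_) ?_
  · rcases (Nat.Prime.dvd_mul Nat.prime_three).1 h4 with h | h
    exacts [hβ h, h3 h]
  · rw [← hu, map_pow, h, one_pow]

theorem Ch.euler {y : ℕ} (hy : ¬ 3 ∣ y) : c.θ y ^ (2 * 3 ^ n) = 1 := by
  obtain ⟨β, hβ⟩ := sq_eq hy
  obtain ⟨u, hu, -⟩ := lte 1 β n le_rfl
  rw [← map_pow, pow_mul, hβ, hu, add_comm 1 n, c.one_add]

theorem Ch.ne {y : ℕ} (hy : ¬ 3 ∣ y) : c.θ y ≠ 0 := by
  intro h
  have h1 := c.euler hy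
  rw [h, zero_pow (by positivity)] at h1
  exact zero_ne_one h1

theorem Ch.cube (hn : 1 ≤ n) {β : ℕ} (hβ : ¬ 3 ∣ β) :
    1 + c.θ (1 + 3 ^ n * β) + c.θ (1 + 3 ^ n * β) ^ 2 = 0 := by
  have h1 : c.θ (1 + 3 ^ n * β) ^ 3 = 1 := by
    rw [← map_pow, c.hθ _ _ (pw n β 3 (n + 1) (by omega)),
      show 1 + 3 ^ n * (β * 3) = 1 + 3 ^ (n + 1) * β by ring, c.one_add]
  have h2 := sub_ne_zero.2 (c.faith β hβ)
  refine mul_left_cancel₀ h2 ?_
  linear_combination h1

theorem Ch.psi_pow (hf : 0 < f) {P : ℕ} (hP : P ≡ 1 [MOD f.factorial]) (hP0 : 0 < P) (i : ℕ) :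
    c.ψ i ^ P = c.ψ i := by
  obtain ⟨s, hs, t, ht, hne, he⟩ := exists_ne_map_eq_of_card_lt_of_maps_to
    (s := range (f + 1)) (t := range f) (by simp) (f := fun s => i ^ s % f)
    (fun s _ => by simpa using Nat.mod_lt _ hf)
  by_cases h0 : c.ψ i = 0
  · rw [h0, zero_pow hP0.ne']
  wlog hst : s < t generalizing s t
  · exact this t ht s hs hne.symm he.symm (by omega)
  obtain ⟨d, rfl⟩ := Nat.exists_eq_add_of_lt hst
  have h1 : c.ψ i ^ s = c.ψ i ^ (s + d + 1) := by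
    rw [← map_pow, ← map_pow]
    exact c.hψ _ _ he
  have h2 : c.ψ i ^ (d + 1) = 1 := by
    rw [add_assoc, pow_add] at h1
    exact (mul_left_cancel₀ (pow_ne_zero s h0) (h1.symm.trans (mul_one _).symm))
  have h3 : d + 1 ∣ f.factorial := Nat.dvd_factorial (by omega) (by simp at ht; omega)
  obtain ⟨e, he⟩ := h3.trans ((Nat.modEq_iff_dvd' hP0).1 hP.symm)
  rw [show P = (d + 1) * e + 1 by omega, pow_succ, pow_mul, h2, one_pow, one_mul]

/-- the trace along the powers of `P` -/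
theorem Ch.trace {a b β P : ℕ} (ha : 1 ≤ a) (hb : 1 ≤ b) (hn : n + 1 = a + b) (hβ : ¬ 3 ∣ β)
    (hP : P = 1 + 3 ^ a * (2 * β)) {y : ℕ} (hy : ¬ 3 ∣ y) :
    ∑ s ∈ range (3 ^ n), c.θ y ^ P ^ s =
      if y ^ 2 ≡ 1 [MOD 3 ^ b] then (3 : k) ^ n * c.θ y else 0 := by
  have hy1 : 1 ≤ y ^ 2 := Nat.one_le_pow _ _ (Nat.pos_of_ne_zero (by rintro rfl; simp at hy))
  have hPs : ∀ s, ∃ t, P ^ s = 1 + 2 * 3 ^ a * t := by
    intro s
    induction s with
    | zero => exact ⟨0, by simp⟩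
    | succ s ih =>
      obtain ⟨t, ht⟩ := ih
      exact ⟨t + β + 2 * 3 ^ a * t * β, by rw [pow_succ, ht, hP]; ring⟩
  split_ifs with h
  · obtain ⟨e, he⟩ := (Nat.modEq_iff_dvd' hy1).1 h.symm
    obtain ⟨u, hu, -⟩ := lte b e a hb
    have h1 : c.θ y ^ (2 * 3 ^ a) = 1 := by
      rw [← map_pow, pow_mul, show y ^ 2 = 1 + 3 ^ b * e by omega, hu, add_comm b a, ← hn,
        c.one_add]
    rw [sum_congr rfl (g := fun _ => c.θ y) fun s _ => ?_]
    · simp
    · obtain ⟨t, ht⟩ := hPs s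
      rw [ht, pow_add, pow_mul, h1, one_pow, mul_one, pow_one]
  · have h0 : y ^ 2 - 1 ≠ 0 := fun h0 => h (by rw [show y ^ 2 = 1 by omega])
    obtain ⟨γ, β1, hβ1, he⟩ := Nat.exists_eq_pow_mul_and_not_dvd h0 3 (by norm_num)
    have hy2 : y ^ 2 = 1 + 3 ^ γ * β1 := by omega
    have hγ1 : 1 ≤ γ := by
      by_contra h1
      obtain ⟨β2, h2⟩ := sq_eq hy
      have : γ = 0 := by omega
      subst this
      omega
    have hγb : γ < b := by
      by_contra h1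
      obtain ⟨e, rfl⟩ := Nat.exists_eq_add_of_le (not_lt.1 h1)
      exact h (by rw [hy2, pow_add, mul_assoc]; exact Nat.add_mul_mod_self_left _ _ _)
    obtain ⟨j, hj⟩ : ∃ j, n = γ + (a + j) := ⟨n - γ - a, by omega⟩
    obtain ⟨u, hu, hu3⟩ := lte a (2 * β) j ha
    obtain ⟨v, hv, hv3⟩ := lte γ β1 (a + j) hγ1
    have hnd : ¬ 3 ∣ β1 * v * (β * u) := by
      intro h4
      simp only [Nat.Prime.dvd_mul Nat.prime_three] at h4
      tauto
    set ρ := c.θ (1 + 3 ^ n * (β1 * v * (β * u))) with hρ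
    have hρ1 : ρ ≠ 1 := c.faith _ hnd
    have hρ3 : ρ ^ 3 = 1 := by
      have := c.cube (by omega) hnd
      rw [← hρ] at this
      linear_combination (ρ - 1) * this
    have h1 : c.θ y ^ P ^ 3 ^ j = c.θ y * ρ := by
      rw [← hj] at hv
      rw [hP, hu, pow_add, pow_one, hρ, ← c.hθ _ _ (pw n (β1 * v) (β * u) (n + 1) (by omega)),
        ← hv, ← hy2, ← map_pow, ← pow_mul, ← pow_mul]
      congr 3
      ring
    have h2 : ∀ s, ρ ^ P ^ s = ρ := by
      intro s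
      obtain ⟨t, ht⟩ := hPs s
      obtain ⟨a', rfl⟩ := Nat.exists_eq_add_of_le ha
      rw [ht, show 1 + 2 * 3 ^ (1 + a') * t = 1 + 3 * (2 * 3 ^ a' * t) by ring, pow_add, pow_mul,
        hρ3, one_pow, mul_one, pow_one]
    have h3 : ∀ s, c.θ y ^ P ^ (s + 3 ^ n) = c.θ y ^ P ^ s := by
      intro s
      obtain ⟨w, hw, -⟩ := lte a (2 * β) n ha
      rw [add_comm s, pow_add, pow_mul, hP, hw,
        show 1 + 3 ^ (a + n) * (2 * β * w) = 1 + 2 * 3 ^ n * (3 ^ a * β * w) by ring, pow_add,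
        pow_mul, c.euler hy, one_pow, mul_one, pow_one]
    have h4 := sum_shift (fun s => c.θ y ^ P ^ s) (3 ^ n) h3 (3 ^ j)
    have h5 : ∑ s ∈ range (3 ^ n), c.θ y ^ P ^ (s + 3 ^ j) =
        (∑ s ∈ range (3 ^ n), c.θ y ^ P ^ s) * ρ := by
      rw [sum_mul]
      refine sum_congr rfl fun s _ => ?_
      rw [add_comm s, pow_add, pow_mul, h1, mul_pow, h2]
    rw [h5] at h4
    refine mul_right_cancel₀ (sub_ne_zero.2 hρ1) ?_
    linear_combination h4

/-- a small number is not sent to an element fixed by the power `P` -/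
theorem Ch.ne_of_small {P b : ℕ} (hψ : ∀ i, c.ψ i ^ P = c.ψ i) {e : ℕ} (hP : P = 2 * e + 1)
    (he : 0 < e) (hb : 2 ≤ b) (h3 : ¬ 3 ∣ b) (hlt : b ^ P < 3 ^ n) {l : k} (hl : l ≠ 0)
    (hlP : l ^ P = l) : c.ψ b * c.θ b ≠ l := by
  intro h
  have hψ0 : c.ψ b ≠ 0 := fun h0 => hl (by rw [← h, h0, zero_mul])
  have h1 : c.θ b ^ P = c.θ b := by
    rw [← h, mul_pow, hψ] at hlP
    exact mul_left_cancel₀ hψ0 hlP
  have h2 : c.θ (b ^ (2 * e)) = 1 := by
    rw [hP, pow_succ] at h1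
    rw [map_pow]
    exact mul_right_cancel₀ (c.ne h3) (h1.trans (one_mul _).symm)
  have h4 : 1 < b ^ (2 * e) := Nat.one_lt_pow (by omega) (by omega)
  obtain ⟨γ, β1, hβ1, hγ⟩ := Nat.exists_eq_pow_mul_and_not_dvd (n := b ^ (2 * e) - 1) (by omega) 3
    (by norm_num)
  have h5 : b ^ (2 * e) = 1 + 3 ^ γ * β1 := by omega
  have hγ1 : 1 ≤ γ := by
    by_contra h6
    obtain ⟨β2, h7⟩ := sq_eq (y := b ^ e) fun h8 => h3 (Nat.prime_three.dvd_of_dvd_pow h8)
    rw [← pow_mul, mul_comm] at h7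
    have : γ = 0 := by omega
    subst this
    omega
  have hγn : γ ≤ n := by
    have h6 : 0 < β1 := Nat.pos_of_ne_zero (by rintro rfl; simp at hβ1)
    have h7 : 3 ^ γ ≤ 3 ^ γ * β1 := Nat.le_mul_of_pos_right _ h6
    have h8 : b ^ (2 * e) ≤ b ^ P := Nat.pow_le_pow_right (by omega) (by omega)
    exact ((Nat.pow_lt_pow_iff_right (by norm_num : 1 < 3)).1 (by omega)).le
  exact c.faith' hγ1 hγn hβ1 (h5 ▸ h2)

end Pool.Agent.P.MP_5347d0_lc.Dio
end

-- part Pool.Agent.P.MP_5347d0_lc.DCore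
section

/-! The nonvanishing theorem (an argument in the style of Sinnott and Washington). -/

namespace Pool.Agent.P.MP_5347d0_lc.Dio

open Finset Polynomial

variable {k : Type} [Field k]

/-- the additive functional with the value `φ i` at `X ^ i` -/
noncomputable def LZ (φ : ℕ → k) : ℤ[X] →ₗ[ℤ] k :=
  Polynomial.lsum fun i => LinearMap.toSpanSingleton ℤ k (φ i)

theorem LZ_eq (φ : ℕ → k) (Y : ℤ[X]) : LZ φ Y = ∑ i ∈ Y.support, (Y.coeff i : k) * φ i := by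
  simp [LZ, Polynomial.lsum, Polynomial.sum]

theorem LZ_monomial (φ : ℕ → k) (i : ℕ) (a : ℤ) : LZ φ (monomial i a) = (a : k) * φ i := by
  simp [LZ, Polynomial.lsum, Polynomial.sum_monomial_index]

theorem LZ_range (φ : ℕ → k) (Y : ℤ[X]) {D : ℕ} (h : Y.natDegree < D) :
    LZ φ Y = ∑ i ∈ range D, (Y.coeff i : k) * φ i := by
  rw [LZ_eq]
  refine sum_subset (supp_subset_range h) fun i _ hi => ?_
  rw [notMem_support_iff.1 hi]
  simp

theorem LZ_X_pow_mul (φ : ℕ → k) (j : ℕ) (Y : ℤ[X]) :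
    LZ φ (X ^ j * Y) = LZ (fun i => φ (i + j)) Y := by
  induction Y using Polynomial.induction_on' with
  | add p q hp hq => rw [mul_add, map_add, map_add, hp, hq]
  | monomial i a => rw [X_pow_mul_monomial, LZ_monomial, LZ_monomial]

theorem LZ_expand (φ : ℕ → k) (j : ℕ) (Y : ℤ[X]) :
    LZ φ (expand ℤ j Y) = LZ (fun i => φ (i * j)) Y := by
  induction Y using Polynomial.induction_on' with
  | add p q hp hq => rw [map_add, map_add, map_add, hp, hq]
  | monomial i a => rw [expand_monomial, LZ_monomial, LZ_monomial]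

/-- the same functional as a function of `φ` -/
noncomputable def LF (Y : ℤ[X]) : (ℕ → k) →ₗ[k] k where
  toFun φ := LZ φ Y
  map_add' φ φ' := by simp [LZ_eq, mul_add, sum_add_distrib]
  map_smul' a φ := by
    simp only [LZ_eq, Pi.smul_apply, smul_eq_mul, RingHom.id_apply, mul_sum]
    exact sum_congr rfl fun i _ => by ring

theorem LZ_phi {φ : ℕ → k} {T : ℕ} (h : ∀ i, φ i + φ (i + T) + φ (i + 2 * T) = 0) (A : ℤ[X]) :
    LZ φ ((X ^ (2 * T) + X ^ T + 1) * A) = 0 := by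
  rw [add_mul, add_mul, one_mul, map_add, map_add, LZ_X_pow_mul, LZ_X_pow_mul]
  have h1 : (fun i => φ (i + 2 * T)) + (fun i => φ (i + T)) + φ = 0 := by
    funext i
    simp only [Pi.add_apply, Pi.zero_apply]
    linear_combination h i
  have h2 := congrArg (LF (k := k) A) h1
  rw [map_add, map_add, map_zero] at h2
  exact h2

theorem LZ_p (p : ℕ) [CharP k p] (φ : ℕ → k) (A : ℤ[X]) : LZ φ ((p : ℤ[X]) * A) = 0 := by
  rw [← nsmul_eq_mul, map_nsmul, nsmul_eq_mul, CharP.cast_eq_zero, zero_mul]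

theorem LZ_frob (p : ℕ) [Fact p.Prime] [CharP k p] (φ : ℕ → k) (e : ℕ) (Y : ℤ[X]) :
    LZ (fun i => φ i ^ p ^ e) Y = LZ φ Y ^ p ^ e := by
  rw [LZ_eq, LZ_eq, ← iterateFrobenius_def (R := k) p e, map_sum]
  refine sum_congr rfl fun i _ => ?_
  rw [map_mul, map_intCast, iterateFrobenius_def]

theorem sq_modEq {b i r : ℕ} (hr : ¬ 3 ∣ r) :
    i ^ 2 ≡ r ^ 2 [MOD 3 ^ b] ↔ (3 : ℤ) ^ b ∣ (i : ℤ) - r ∨ (3 : ℤ) ^ b ∣ (i : ℤ) + r := by
  rw [Nat.modEq_iff_dvd]
  push_cast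
  rw [show (r : ℤ) ^ 2 - (i : ℤ) ^ 2 = -((i - r) * (i + r)) by ring, dvd_neg]
  refine ⟨fun h => ?_, fun h => h.elim (fun h => h.mul_right _) fun h => h.mul_left _⟩
  by_cases h3 : (3 : ℤ) ∣ (i : ℤ) - r
  · refine Or.inl (Int.prime_three.pow_dvd_of_dvd_mul_right b (fun h4 => hr ?_) h)
    omega
  · exact Or.inr (Int.prime_three.pow_dvd_of_dvd_mul_left b h3 h)

variable {f n : ℕ} (c : Ch k f n)

/-- step one: the partial sums over the classes `± r` vanish -/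
theorem Ch.part (p : ℕ) [Fact p.Prime] [CharP k p] (hp3 : p ≠ 3) {a b β E : ℕ} (ha : 1 ≤ a)
    (hb : 1 ≤ b) (hn : n + 1 = a + b) (hβ : ¬ 3 ∣ β) (hP : p ^ E = 1 + 3 ^ a * (2 * β))
    (hψ : ∀ i, c.ψ i ^ p ^ E = c.ψ i) {Y : ℤ[X]} (hY : LZ (fun i => c.ψ i * c.θ i) Y = 0)
    {r : ℕ} (hr : ¬ 3 ∣ r) :
    LZ (fun i => if i ^ 2 ≡ r ^ 2 [MOD 3 ^ b] then c.ψ i * c.θ i else 0) Y = 0 := by
  have h3 : (3 : k) ≠ 0 := by
    intro h
    have h1 : p ∣ 3 := (CharP.cast_eq_zero_iff k p 3).1 (by exact_mod_cast h)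
    exact hp3 ((Nat.prime_dvd_prime_iff_eq Fact.out Nat.prime_three).1 h1)
  have hco : Nat.Coprime r (3 ^ b) :=
    Nat.Coprime.pow_right _ ((Nat.Prime.coprime_iff_not_dvd Nat.prime_three).2 hr).symm
  obtain ⟨r', hr'⟩ : ∃ r', r * r' ≡ 1 [MOD 3 ^ b] := by
    obtain ⟨m, -, hm⟩ := Nat.exists_mul_mod_eq_one_of_coprime hco (Nat.one_lt_pow (by omega)
      (by norm_num))
    exact ⟨m, by rw [Nat.ModEq, hm, Nat.mod_eq_of_lt (Nat.one_lt_pow (by omega) (by norm_num))]⟩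
  have hr3 : ¬ 3 ∣ r' := by
    intro h
    have h1 := (hr'.of_dvd (dvd_pow_self 3 (by omega : b ≠ 0)))
    have h2 : 3 ∣ r * r' := h.mul_left _
    unfold Nat.ModEq at h1
    omega
  have hψs : ∀ s i, c.ψ i ^ (p ^ E) ^ s = c.ψ i := by
    intro s i
    induction s with
    | zero => simp
    | succ s ih => rw [pow_succ, pow_mul, ih, hψ]
  have key : ∑ s ∈ range (3 ^ n), c.θ r' ^ (p ^ E) ^ s • (fun i => (c.ψ i * c.θ i) ^ p ^ (E * s)) =
      ((3 : k) ^ n * c.θ r') •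
        fun i => if i ^ 2 ≡ r ^ 2 [MOD 3 ^ b] then c.ψ i * c.θ i else 0 := by
    funext i
    rw [Finset.sum_apply]
    simp only [Pi.smul_apply, smul_eq_mul]
    by_cases hi : 3 ∣ i
    · have h0 : ∀ s, p ^ (E * s) ≠ 0 := fun s => pow_ne_zero _ (Fact.out : p.Prime).ne_zero
      simp [c.dvd hi, zero_pow (h0 _)]
    have h1 := c.trace ha hb hn hβ hP (y := i * r') (by
      rw [Nat.Prime.dvd_mul Nat.prime_three]; tauto)
    have h2 : (i * r') ^ 2 ≡ 1 [MOD 3 ^ b] ↔ i ^ 2 ≡ r ^ 2 [MOD 3 ^ b] := by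
      have h4 : (r * r') ^ 2 ≡ 1 [MOD 3 ^ b] := by simpa using hr'.pow 2
      constructor
      · intro h
        have h5 := (h4.mul_left (i ^ 2)).symm.trans
          (show i ^ 2 * (r * r') ^ 2 ≡ r ^ 2 * 1 [MOD 3 ^ b] by
            rw [show i ^ 2 * (r * r') ^ 2 = r ^ 2 * (i * r') ^ 2 by ring]
            exact h.mul_left _)
        simpa using h5
      · intro h
        rw [mul_pow] at h4 ⊢
        exact (h.mul_right _).trans h4
    rw [sum_congr rfl (g := fun s => c.ψ i * c.θ (i * r') ^ (p ^ E) ^ s) fun s _ => by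
      rw [pow_mul, mul_pow, hψs, map_mul, mul_pow]; ring, ← mul_sum, h1]
    simp only [h2]
    split_ifs
    · rw [map_mul]; ring
    · simp
  have h4 := congrArg (LF (k := k) Y) key
  rw [map_sum, map_smul, sum_eq_zero fun s _ => ?_] at h4
  · exact (mul_eq_zero.1 h4.symm).resolve_left (mul_ne_zero (pow_ne_zero _ h3) (c.ne hr3))
  · rw [map_smul]
    show _ • LZ _ Y = 0
    rw [LZ_frob, hY, zero_pow (pow_ne_zero _ (Fact.out : p.Prime).ne_zero), smul_zero]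

/-- step two: pass to the values at the roots of `X ^ 3 ^ b = θ (1 + 3 ^ b)` -/
theorem Ch.sym (hf : 0 < f) {a b : ℕ} (ha : 1 ≤ a) (hab : a ≤ b) (hn : n + 1 = a + b) {w : k}
    (hw : w ^ 3 ^ b = c.θ (1 + 3 ^ b)) {Y : ℤ[X]}
    (hY : ∀ r, ¬ 3 ∣ r →
      LZ (fun i => if i ^ 2 ≡ r ^ 2 [MOD 3 ^ b] then c.ψ i * c.θ i else 0) Y = 0) :
    LZ (fun i => (if i ≡ 1 [MOD 3 ^ a] then c.ψ i else 0) * w ^ i)
      (Y + expand ℤ (f * 3 ^ (n + 1) - 1) Y) = 0 := by
  set N1 := f * 3 ^ (n + 1) - 1 with hN1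
  have hN : (N1 : ℤ) = f * 3 ^ (n + 1) - 1 := by
    rw [hN1, Nat.cast_sub (Nat.one_le_iff_ne_zero.2 (by positivity))]
    push_cast
    ring
  have h31 : ∀ r, r ≡ 1 [MOD 3 ^ a] → ¬ 3 ∣ r := by
    intro r hr h
    have h1 := hr.of_dvd (dvd_pow_self 3 (by omega : a ≠ 0))
    unfold Nat.ModEq at h1
    omega
  let φ : ℕ → k := fun i => (if i ≡ 1 [MOD 3 ^ a] then c.ψ i else 0) * w ^ i
  let φp : ℕ → ℕ → k := fun r i => if (3 : ℤ) ^ b ∣ (i : ℤ) - r then c.ψ i * c.θ i else 0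
  let co : ℕ → k := fun r => if r ≡ 1 [MOD 3 ^ a] then w ^ r * (c.θ r)⁻¹ else 0
  have h1 : ∀ i, φ i = ∑ r ∈ range (3 ^ b), co r * φp r i := by
    intro i
    have hb0 : 0 < 3 ^ b := by positivity
    rw [sum_eq_single (i % 3 ^ b)]
    · obtain ⟨s, hs⟩ : ∃ s, i = i % 3 ^ b + 3 ^ b * s := ⟨i / 3 ^ b, (Nat.mod_add_div _ _).symm⟩
      generalize i % 3 ^ b = r at hs
      have h2 : (3 : ℤ) ^ b ∣ (i : ℤ) - r := ⟨s, by rw [hs]; push_cast; ring⟩
      have h3 : i ≡ r [MOD 3 ^ a] := by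
        obtain ⟨e, rfl⟩ := Nat.exists_eq_add_of_le hab
        rw [hs, pow_add, mul_assoc]
        exact Nat.add_mul_mod_self_left _ _ _
      simp only [φ, φp, co, h2, if_true]
      by_cases hr : r ≡ 1 [MOD 3 ^ a]
      · rw [if_pos hr, if_pos (h3.trans hr)]
        have hr0 := c.ne (h31 r hr)
        obtain ⟨t, ht⟩ := (Nat.modEq_iff_dvd' (Nat.pos_of_ne_zero
          (fun h : r = 0 => h31 r hr (by rw [h]; exact dvd_zero 3)))).1 hr.symm
        have h4 : c.θ i = c.θ r * c.θ (1 + 3 ^ b) ^ s := by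
          rw [← map_pow, ← map_mul]
          refine c.hθ _ _ (Nat.ModEq.symm ?_)
          have h5 := pw b 1 s (n + 1) (by omega)
          simp only [mul_one, one_mul] at h5
          refine (h5.mul_left r).trans ?_
          have h6 : r = 1 + 3 ^ a * t := by
            have : r ≠ 0 := fun h => h31 r hr (by rw [h]; exact dvd_zero 3)
            omega
          rw [show r * (1 + 3 ^ b * s) = i + 3 ^ (n + 1) * (t * s) by rw [hs, hn, h6]; ring]
          exact Nat.add_mul_mod_self_left _ _ _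
        rw [h4, ← hw, ← pow_mul]
        nth_rewrite 2 [hs]
        rw [pow_add]
        field_simp
      · rw [if_neg hr, if_neg fun h => hr (h3.symm.trans h), zero_mul, zero_mul]
    · intro r hr hne
      have h2 : ¬ (3 : ℤ) ^ b ∣ (i : ℤ) - r := by
        intro h
        have h3 : r ≡ i [MOD 3 ^ b] := by
          rw [Nat.modEq_iff_dvd]
          exact_mod_cast h
        exact hne (by rw [← h3, Nat.mod_eq_of_lt (mem_range.1 hr)])
      simp [φp, h2]
    · intro h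
      exact absurd (mem_range.2 (Nat.mod_lt _ hb0)) h
  have h2 : ∀ r, ¬ 3 ∣ r → ∀ i, φp r i + φp r (i * N1) =
      if i ^ 2 ≡ r ^ 2 [MOD 3 ^ b] then c.ψ i * c.θ i else 0 := by
    intro r hr i
    have h3 : (3 : ℤ) ^ b ∣ ((i * N1 : ℕ) : ℤ) - r ↔ (3 : ℤ) ^ b ∣ (i : ℤ) + r := by
      rw [Nat.cast_mul, hN, hn,
        show (i : ℤ) * (f * 3 ^ (a + b) - 1) - r = 3 ^ b * (i * f * 3 ^ a) - (i + r) by ring,
        dvd_sub_right (dvd_mul_right _ _)]
    have h4 : c.ψ (i * N1) * c.θ (i * N1) = c.ψ i * c.θ i := by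
      rw [map_mul, map_mul]
      linear_combination (c.ψ i * c.θ i) * c.even
    have h5 : ¬ ((3 : ℤ) ^ b ∣ (i : ℤ) - r ∧ (3 : ℤ) ^ b ∣ (i : ℤ) + r) := by
      rintro ⟨h6, h7⟩
      have h8 := (dvd_pow_self (3 : ℤ) (by omega : b ≠ 0)).trans h6
      have h9 := (dvd_pow_self (3 : ℤ) (by omega : b ≠ 0)).trans h7
      omega
    simp only [φp, h3, h4, sq_modEq hr]
    by_cases h6 : (3 : ℤ) ^ b ∣ (i : ℤ) - r <;> by_cases h7 : (3 : ℤ) ^ b ∣ (i : ℤ) + r <;>
      simp [h6, h7] at h5 ⊢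
  have key : φ + (fun i => φ (i * N1)) = ∑ r ∈ range (3 ^ b), co r •
      (φp r + fun i => φp r (i * N1)) := by
    funext i
    rw [Finset.sum_apply]
    simp only [Pi.add_apply, Pi.smul_apply, smul_eq_mul, mul_add, sum_add_distrib]
    rw [← h1, ← h1]
  have h3 := congrArg (LF (k := k) Y) key
  rw [map_add, map_sum, sum_eq_zero fun r _ => ?_] at h3
  · rw [map_add, LZ_expand]
    exact h3
  · rw [map_smul]
    by_cases hr : r ≡ 1 [MOD 3 ^ a]
    · rw [show (φp r + fun i => φp r (i * N1)) = _ from funext (h2 r (h31 r hr))]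
      show _ • LZ _ Y = 0
      rw [hY r (h31 r hr), smul_zero]
    · simp [co, hr]

/-- the nonvanishing theorem -/
theorem Ch.core [IsAlgClosed k] (p : ℕ) [Fact p.Prime] [CharP k p] (hp2 : p ≠ 2) (hp3 : p ≠ 3)
    (hf : 0 < f) (hf3 : ¬ 3 ∣ f) {a b β E : ℕ} (ha : 1 ≤ a) (hab : a ≤ b) (hn : n + 1 = a + b)
    (hβ : ¬ 3 ∣ β) (hP : p ^ E = 1 + 3 ^ a * (2 * β)) (hψ : ∀ i, c.ψ i ^ p ^ E = c.ψ i)
    (hbig : p + p * (f * 3 ^ a) < 3 ^ b) {Y q A B A' B' : ℤ[X]}
    (hq : (1 - X) ^ p = 1 - X ^ p + (p : ℤ[X]) * q)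
    (h1 : (1 - X ^ p) * Y = q + (X ^ (2 * (f * 3 ^ n)) + X ^ (f * 3 ^ n) + 1) * A +
      (p : ℤ[X]) * B)
    (h2 : expand ℤ (f * 3 ^ (n + 1) - 1) Y =
      Y + (X ^ (2 * (f * 3 ^ n)) + X ^ (f * 3 ^ n) + 1) * A' + (p : ℤ[X]) * B') :
    LZ (fun i => c.ψ i * c.θ i) Y ≠ 0 := by
  classical
  intro hY
  have hp : p.Prime := Fact.out
  have hne : ∀ l : ℕ, l.Prime → p ≠ l → (l : k) ≠ 0 := fun l hl hpl h =>
    hpl ((Nat.prime_dvd_prime_iff_eq hp hl).1 ((CharP.cast_eq_zero_iff k p l).1 h))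
  let g : ℕ → k := fun i => if i ≡ 1 [MOD 3 ^ a] then c.ψ i else 0
  have hg : ∀ i j, g (i + f * 3 ^ a * j) = g i := by
    intro i j
    have e1 : i + f * 3 ^ a * j ≡ i [MOD 3 ^ a] := by
      rw [show i + f * 3 ^ a * j = i + 3 ^ a * (f * j) by ring]
      exact Nat.add_mul_mod_self_left _ _ _
    have e2 : c.ψ (i + f * 3 ^ a * j) = c.ψ i := by
      refine c.hψ _ _ ?_
      rw [mul_assoc]
      exact Nat.add_mul_mod_self_left _ _ _
    simp only [g, e2]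
    exact if_congr ⟨fun h => e1.symm.trans h, fun h => e1.trans h⟩ rfl rfl
  obtain ⟨G, hG⟩ : ∃ G, f * 3 ^ a = G + 1 := ⟨f * 3 ^ a - 1, by
    have : 0 < f * 3 ^ a := by positivity
    omega⟩
  set H : ℤ[X] := ∑ i ∈ range (G + 1), (X ^ p) ^ i with hH
  have hqd : q.natDegree ≤ p := by
    have e1 : (C (p : ℤ) * q) = (1 - X) ^ p - (1 - X ^ p) := by
      rw [hq]; simp
    rw [← natDegree_C_mul (p := q) (a := (p : ℤ)) (by exact_mod_cast hp.ne_zero), e1]
    refine (natDegree_sub_le _ _).trans (max_le (natDegree_pow_le.trans ?_) ?_)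
    · have : (1 - X : ℤ[X]).natDegree ≤ 1 := (natDegree_sub_le _ _).trans (by simp)
      nlinarith
    · exact (natDegree_sub_le _ _).trans (by simp)
  have hq1 : q.coeff 1 = -1 := by
    have e1 := congrArg (fun Z : ℤ[X] => eval 0 (derivative Z)) hq
    obtain ⟨p', rfl⟩ : ∃ p', p = p' + 2 := ⟨p - 2, by have := hp.two_le; omega⟩
    simp only [derivative_pow, derivative_sub, derivative_one, derivative_X, derivative_add,
      derivative_mul, derivative_natCast, eval_mul, eval_add, eval_sub, eval_pow, eval_C,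
      eval_one, eval_X, eval_zero, eval_natCast, ← coeff_zero_eq_eval_zero,
      coeff_derivative] at e1
    have e2 : ((p' + 2 : ℕ) : ℤ) ≠ 0 := by positivity
    refine mul_left_cancel₀ e2 ?_
    simp at e1 ⊢
    linear_combination -e1
  have hdeg : (q * H).natDegree < 3 ^ b := by
    refine (natDegree_mul_le.trans (add_le_add hqd (natDegree_sum_le_of_forall_le _ _
      (n := p * (f * 3 ^ a)) fun i hi => ?_))).trans_lt hbig
    rw [← pow_mul, natDegree_X_pow]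
    exact Nat.mul_le_mul_left _ (by rw [hG]; exact (mem_range.1 hi).le)
  let R : k[X] := ∑ i ∈ range ((q * H).natDegree + 1), monomial i (((q * H).coeff i : k) * g i)
  have hl : c.θ (1 + 3 ^ b) ≠ 0 := c.ne (by
    obtain ⟨e, rfl⟩ : ∃ e, b = e + 1 := ⟨b - 1, by omega⟩
    omega)
  have hR : R = 0 := by
    refine eq_zero_of_natDegree_lt_card_of_eval_eq_zero' R
      (X ^ 3 ^ b - C (c.θ (1 + 3 ^ b))).roots.toFinset (fun w hw => ?_) ?_
    · have hw : w ^ 3 ^ b = c.θ (1 + 3 ^ b) := by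
        have := (mem_roots'.1 (Multiset.mem_toFinset.1 hw)).2
        simpa [sub_eq_zero] using this
      obtain ⟨a', rfl⟩ := Nat.exists_eq_add_of_le ha
      have hn' : n = b + a' := by omega
      have hρ : 1 + w ^ (f * 3 ^ n) + (w ^ (f * 3 ^ n)) ^ 2 = 0 := by
        obtain ⟨u, hu, hu3⟩ := lte b 1 a' (by omega)
        rw [← hn', mul_one, one_mul] at hu
        have e1 : w ^ (f * 3 ^ n) = c.θ (1 + 3 ^ n * (u * f)) := by
          rw [← c.hθ _ _ (pw n u f (n + 1) (by omega)), ← hu, map_pow, map_pow, ← hw, ← pow_mul,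
            ← pow_mul, ← mul_assoc, ← pow_add, ← hn', mul_comm]
        rw [e1]
        exact c.cube (by omega) (by rw [Nat.Prime.dvd_mul Nat.prime_three]; tauto)
      obtain ⟨j, hj⟩ : ∃ j, f * 3 ^ n = f * 3 ^ (1 + a') * j :=
        ⟨3 ^ (b - 1), by rw [mul_assoc, ← pow_add]; congr 2; omega⟩
      have hΦ := LZ_phi (φ := fun i => g i * w ^ i) (T := f * 3 ^ n) fun i => by
        have e1 : g (i + f * 3 ^ n) = g i := by rw [hj, hg]
        have e2 : g (i + 2 * (f * 3 ^ n)) = g i := by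
          rw [hj, show 2 * (f * 3 ^ (1 + a') * j) = f * 3 ^ (1 + a') * (2 * j) by ring, hg]
        rw [e1, e2]
        linear_combination (g i * w ^ i) * hρ
      have e3 := c.sym hf ha hab hn hw fun r hr => c.part p hp3 ha (by omega) hn hβ hP hψ hY hr
      rw [h2, map_add, map_add, map_add, hΦ, LZ_p, add_zero, add_zero, ← two_mul] at e3
      have e4 : LZ (fun i => g i * w ^ i) Y = 0 :=
        (mul_eq_zero.1 e3).resolve_left (by exact_mod_cast hne 2 Nat.prime_two hp2)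
      have e5 : q * H = Y - X ^ (p * (G + 1)) * Y -
          (X ^ (2 * (f * 3 ^ n)) + X ^ (f * 3 ^ n) + 1) * (A * H) - (p : ℤ[X]) * (B * H) := by
        have e6 := mul_neg_geom_sum (X ^ p : ℤ[X]) (G + 1)
        rw [← hH, ← pow_mul] at e6
        linear_combination (-H) * h1 + Y * e6
      have e7 : LZ (fun i => g i * w ^ i) (q * H) = 0 := by
        rw [e5, map_sub, map_sub, map_sub, hΦ, LZ_p, e4, LZ_X_pow_mul]
        have e8 : (fun i => g (i + p * (G + 1)) * w ^ (i + p * (G + 1))) =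
            w ^ (p * (G + 1)) • fun i => g i * w ^ i := by
          funext i
          rw [← hG, mul_comm p, hg, Pi.smul_apply, smul_eq_mul]
          ring
        have e9 := map_smul (LF (k := k) Y) (w ^ (p * (G + 1))) fun i => g i * w ^ i
        rw [← e8] at e9
        change LZ _ Y = _ • LZ _ Y at e9
        rw [e9, e4]
        simp
      rw [LZ_range _ _ (Nat.lt_succ_self _)] at e7
      rw [← e7, eval_finsetSum]
      exact sum_congr rfl fun i _ => by rw [eval_monomial]; ring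
    · rw [Multiset.toFinset_card_of_nodup (nodup_roots (separable_X_pow_sub_C _ (by
        exact_mod_cast pow_ne_zero b (hne 3 Nat.prime_three hp3)) hl)),
        IsAlgClosed.card_roots_eq_natDegree, natDegree_X_pow_sub_C]
      refine lt_of_le_of_lt (natDegree_sum_le_of_forall_le _ _ fun i hi => ?_) hdeg
      exact (natDegree_monomial_le _).trans (Nat.lt_succ_iff.1 (mem_range.1 hi))
  have hc1 : (q * H).coeff 1 = -1 := by
    rw [hH, geom_sum_succ, mul_add, mul_one, coeff_add, hq1, mul_left_comm,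
      coeff_X_pow_mul', if_neg (by have := hp.two_le; omega), zero_add]
  have h3 := congrArg (fun Z : k[X] => Z.coeff 1) hR
  simp only [R, finsetSum_coeff, coeff_monomial, sum_ite_eq', mem_range, coeff_zero] at h3
  rw [if_pos (Nat.lt_succ_of_le (le_natDegree_of_ne_zero (by rw [hc1]; norm_num))), hc1] at h3
  simp [g, Nat.ModEq] at h3

end Pool.Agent.P.MP_5347d0_lc.Dio
end

-- part Pool.Agent.P.MP_5347d0_lc.DRel
section

/-! The logarithmic derivative of Frobenius modulo the square of a prime. -/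

namespace Pool.Agent.P.MP_5347d0_lc.Dio

open Finset Polynomial

variable {B : Type} [CommRing B]

/-- the Frobenius congruence -/
theorem frob_cong {p : ℕ} (hp : p.Prime) (z : B) (Y : ℤ[X]) :
    (p : B) ∣ aeval z Y ^ p - aeval (z ^ p) Y := by
  induction Y using Polynomial.induction_on' with
  | add a b ha hb =>
    obtain ⟨r, hr⟩ := exists_add_pow_prime_eq hp (aeval z a) (aeval z b)
    rw [map_add, map_add, hr, show aeval z a ^ p + aeval z b ^ p + p * aeval z a * aeval z b * r -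
      (aeval (z ^ p) a + aeval (z ^ p) b) = (aeval z a ^ p - aeval (z ^ p) a) +
        (aeval z b ^ p - aeval (z ^ p) b) + p * (aeval z a * aeval z b * r) by ring]
    exact (ha.add hb).add (dvd_mul_right _ _)
  | monomial i a =>
    have : Fact p.Prime := ⟨hp⟩
    obtain ⟨c, hc⟩ : (p : ℤ) ∣ a ^ p - a := by
      rw [← ZMod.intCast_zmod_eq_zero_iff_dvd]
      push_cast
      rw [ZMod.pow_card, sub_self]
    have h1 : (a : B) ^ p - a = p * c := by exact_mod_cast congrArg (Int.cast : ℤ → B) hc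
    refine ⟨c * (z ^ i) ^ p, ?_⟩
    simp only [aeval_monomial, algebraMap_int_eq, eq_intCast]
    rw [mul_pow, ← pow_mul z p i, mul_comm p i, pow_mul]
    linear_combination (z ^ i) ^ p * h1

/-- `y ^ p = τ y * (1 + p * d)` modulo `p ^ 2` -/
def Rel (p : ℕ) (τ : B →+* B) (y d : B) : Prop := (p : B) * p ∣ y ^ p - τ y * (1 + p * d)

variable {p : ℕ} {τ : B →+* B}

theorem Rel.mul {y y' d d' : B} (h : Rel p τ y d) (h' : Rel p τ y' d') :
    Rel p τ (y * y') (d + d') := by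
  obtain ⟨a, ha⟩ := h
  obtain ⟨b, hb⟩ := h'
  refine ⟨a * y' ^ p + τ y * (1 + p * d) * b + τ y * τ y' * d * d', ?_⟩
  rw [mul_pow, map_mul]
  linear_combination y' ^ p * ha + τ y * (1 + p * d) * hb

theorem Rel.pow {y d : B} (h : Rel p τ y d) (j : ℕ) : Rel p τ (y ^ j) (j * d) := by
  induction j with
  | zero => exact ⟨0, by simp⟩
  | succ j ih =>
    rw [pow_succ, Nat.cast_succ, add_mul, one_mul]
    exact ih.mul h

theorem Rel.map {y d : B} (h : Rel p τ y d) (σ : B →+* B) (hσ : σ (τ y) = τ (σ y)) :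
    Rel p τ (σ y) (σ d) := by
  have h1 := map_dvd σ h
  simpa only [Rel, map_mul, map_sub, map_pow, map_add, map_one, map_natCast, hσ] using h1

theorem Rel.ex {y : B} (hy : IsCoprime y p) (h : (p : B) ∣ y ^ p - τ y) : ∃ d, Rel p τ y d := by
  obtain ⟨c, hc⟩ := h
  obtain ⟨u, v, huv⟩ := hy.map τ
  rw [map_natCast] at huv
  exact ⟨u * c, c * v, by linear_combination hc - p * c * huv⟩

theorem Rel.uniq (htf : ∀ a : B, p * a = 0 → a = 0) {y d d' : B} (hy : IsCoprime y p)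
    (h : Rel p τ y d) (h' : Rel p τ y d') : (p : B) ∣ d - d' := by
  obtain ⟨a, ha⟩ := h
  obtain ⟨b, hb⟩ := h'
  have h1 := hy.map τ
  rw [map_natCast] at h1
  refine h1.symm.dvd_of_dvd_mul_left ⟨b - a, sub_eq_zero.1 (htf _ ?_)⟩
  linear_combination hb - ha

theorem pow_step (hp : Odd p) {s : B} (hs : (p : B) ∣ s) (d : B) :
    ∃ c, (1 + s * d) ^ p = 1 + p * s * (d + p * c) := by
  obtain ⟨t, rfl⟩ := hs
  obtain ⟨c, hc⟩ := odd_sq_dvd_geom_sum₂_sub (R := B) (a := 1) (b := t * d) hp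
  simp only [one_pow, mul_one] at hc
  have h1 := mul_geom_sum (1 + p * (t * d)) p
  refine ⟨c * d, ?_⟩
  rw [mul_assoc]
  linear_combination (p * (t * d)) * hc - h1

end Pool.Agent.P.MP_5347d0_lc.Dio
end

-- part Pool.Agent.P.MP_5347d0_lc.DRing
section

/-! The universal ring with a root of `X ^ (2 * T) + X ^ T + 1`. -/

namespace Pool.Agent.P.MP_5347d0_lc.Dio

open Finset Polynomial

theorem cube_pow {R : Type} [CommRing R] {ρ : R} (h : ρ ^ 2 + ρ + 1 = 0) {b : ℕ} (hb : ¬ 3 ∣ b) :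
    (ρ ^ b) ^ 2 + ρ ^ b + 1 = 0 := by
  have h3 : ρ ^ 3 = 1 := by linear_combination (ρ - 1) * h
  rw [← Nat.mod_add_div b 3, pow_add, pow_mul, h3, one_pow, mul_one]
  have h1 : b % 3 = 1 ∨ b % 3 = 2 := by omega
  rcases h1 with h1 | h1 <;> rw [h1]
  · linear_combination h
  · linear_combination h + ρ * h3

/-- the polynomial -/
noncomputable def Ph (T : ℕ) : ℤ[X] := X ^ (2 * T) + X ^ T + 1

/-- the ring -/
abbrev BB (T : ℕ) : Type := AdjoinRoot (Ph T)

/-- the root -/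
noncomputable def zz (T : ℕ) : BB T := AdjoinRoot.root (Ph T)

variable {T : ℕ}

theorem Ph_monic (hT : 0 < T) : (Ph T).Monic := by
  rw [Ph, add_assoc]
  refine monic_X_pow_add ((degree_add_le _ _).trans_lt (max_lt ?_ ?_))
  · rw [degree_X_pow]
    exact_mod_cast (by omega : T < 2 * T)
  · rw [degree_one]
    exact_mod_cast (by omega : 0 < 2 * T)

theorem zz_surj (y : BB T) : ∃ Y : ℤ[X], aeval (zz T) Y = y := by
  obtain ⟨Y, rfl⟩ := AdjoinRoot.mk_surjective y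
  exact ⟨Y, AdjoinRoot.aeval_eq Y⟩

theorem zz_ker {Y : ℤ[X]} : aeval (zz T) Y = 0 ↔ Ph T ∣ Y := by
  rw [zz, AdjoinRoot.aeval_eq, AdjoinRoot.mk_eq_zero]

theorem zz_rel (T : ℕ) : (zz T ^ T) ^ 2 + zz T ^ T + 1 = 0 := by
  have h := (zz_ker (T := T)).2 dvd_rfl
  rw [← pow_mul, mul_comm]
  simpa [Ph] using h

theorem zz_three (T : ℕ) : zz T ^ (3 * T) = 1 := by
  rw [mul_comm, pow_mul]
  linear_combination (zz T ^ T - 1) * zz_rel T

theorem one_sub_dvd {R : Type} [CommRing R] {z : R} {T : ℕ} (h : (z ^ T) ^ 2 + z ^ T + 1 = 0) :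
    1 - z ∣ 3 :=
  ⟨(∑ i ∈ range T, z ^ i) * (2 + z ^ T), by
    linear_combination h - (2 + z ^ T) * mul_neg_geom_sum z T⟩

theorem BB_tf (hT : 0 < T) {p : ℕ} (hp : p ≠ 0) (a : BB T) (h : p * a = 0) : a = 0 := by
  refine (AdjoinRoot.mk_leftInverse (Ph_monic hT)).injective ?_
  have h1 := congrArg (AdjoinRoot.modByMonicHom (Ph_monic hT)) h
  rw [← nsmul_eq_mul, map_nsmul, map_zero, nsmul_eq_mul, mul_eq_zero] at h1
  rw [map_zero]
  exact h1.resolve_left (by exact_mod_cast hp)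

/-- a map out of the universal ring -/
theorem exists_hom {R : Type} [CommRing R] {z : R} (h : (z ^ T) ^ 2 + z ^ T + 1 = 0) :
    ∃ σ : BB T →+* R, σ (zz T) = z :=
  ⟨AdjoinRoot.lift (Int.castRingHom R) z (by
    rw [← pow_mul, mul_comm] at h
    simpa [Ph] using h), AdjoinRoot.lift_root _⟩

theorem exists_sg (T b : ℕ) : ∃ σ : BB T →+* BB T, ¬ 3 ∣ b → σ (zz T) = zz T ^ b := by
  by_cases hb : 3 ∣ b
  · exact ⟨RingHom.id _, fun h => absurd hb h⟩
  · obtain ⟨σ, hσ⟩ := exists_hom (T := T) (z := zz T ^ b) (by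
      rw [pow_right_comm _ b T]
      exact cube_pow (zz_rel T) hb)
    exact ⟨σ, fun _ => hσ⟩

/-- the endomorphism that raises the root to the power `b` -/
noncomputable def sg (T b : ℕ) : BB T →+* BB T := (exists_sg T b).choose

theorem sg_zz {b : ℕ} (hb : ¬ 3 ∣ b) : sg T b (zz T) = zz T ^ b := (exists_sg T b).choose_spec hb

theorem hom_aeval {R S : Type} [CommRing R] [CommRing S] [Algebra ℤ R] [Algebra ℤ S]
    (σ : R →+* S) (z : R) (Y : ℤ[X]) : σ (aeval z Y) = aeval (σ z) Y := by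
  induction Y using Polynomial.induction_on' with
  | add a b ha hb => rw [map_add, map_add, map_add, ha, hb]
  | monomial i a => simp only [aeval_monomial, eq_intCast, map_mul, map_pow, map_intCast]

theorem sg_aeval {b : ℕ} (hb : ¬ 3 ∣ b) (Y : ℤ[X]) :
    sg T b (aeval (zz T) Y) = aeval (zz T ^ b) Y := by
  rw [hom_aeval, sg_zz hb]

theorem not_dvd_mul {a b : ℕ} (ha : ¬ 3 ∣ a) (hb : ¬ 3 ∣ b) : ¬ 3 ∣ a * b := by
  rw [Nat.Prime.dvd_mul Nat.prime_three]
  tauto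

theorem sg_mul {a b : ℕ} (ha : ¬ 3 ∣ a) (hb : ¬ 3 ∣ b) (y : BB T) :
    sg T a (sg T b y) = sg T (a * b) y := by
  obtain ⟨Y, rfl⟩ := zz_surj y
  rw [sg_aeval hb, sg_aeval (not_dvd_mul ha hb), hom_aeval, map_pow, sg_zz ha, pow_mul]

theorem sg_comm {a b : ℕ} (ha : ¬ 3 ∣ a) (hb : ¬ 3 ∣ b) (y : BB T) :
    sg T a (sg T b y) = sg T b (sg T a y) := by
  rw [sg_mul ha hb, sg_mul hb ha, mul_comm]

theorem sg_frob {p : ℕ} (hp : p.Prime) (h3 : ¬ 3 ∣ p) (y : BB T) :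
    (p : BB T) ∣ y ^ p - sg T p y := by
  obtain ⟨Y, rfl⟩ := zz_surj y
  rw [sg_aeval h3]
  exact frob_cong hp _ _

theorem exists_L (hT : 0 < T) {k : Type} [Field k] {χ : ℕ → k}
    (h : ∀ i, χ i + χ (i + T) + χ (i + 2 * T) = 0) :
    ∃ L : BB T →ₗ[ℤ] k, ∀ Y, L (aeval (zz T) Y) = LZ χ Y := by
  refine ⟨LZ χ ∘ₗ AdjoinRoot.modByMonicHom (Ph_monic hT), fun Y => ?_⟩
  rw [zz, AdjoinRoot.aeval_eq, LinearMap.comp_apply, AdjoinRoot.modByMonicHom_mk,
    modByMonic_eq_sub_mul_div, map_sub, Ph, LZ_phi h, sub_zero]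

/-- the geometric sum of length prime to `3 * T` is a unit -/
theorem isUnit_geom (hT : 0 < T) {p : ℕ} (hp : Nat.Coprime p (3 * T)) :
    IsUnit (∑ i ∈ range p, zz T ^ i) := by
  obtain ⟨q, -, hq⟩ := Nat.exists_mul_mod_eq_one_of_coprime hp (by omega)
  have h1 : (zz T ^ p) ^ q = zz T := by
    rw [← pow_mul, ← Nat.mod_add_div (p * q) (3 * T), hq, pow_add, pow_mul, zz_three, one_pow,
      mul_one, pow_one]
  have h2 := mul_neg_geom_sum (zz T ^ p) q
  have h3 := mul_neg_geom_sum (zz T) p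
  obtain ⟨c, hc⟩ := one_sub_dvd (zz_rel T)
  rw [h1] at h2
  refine IsUnit.of_mul_eq_one (∑ i ∈ range q, (zz T ^ p) ^ i) (sub_eq_zero.1
    (BB_tf hT (p := 3) (by norm_num) _ ?_))
  push_cast
  rw [hc]
  linear_combination c * h2 + c * (∑ i ∈ range q, (zz T ^ p) ^ i) * h3

end Pool.Agent.P.MP_5347d0_lc.Dio
end

-- part Pool.Agent.P.MP_5347d0_lc.DUnit
section

/-! Cyclotomic units congruent to one with nonvanishing character sum. -/

namespace Pool.Agent.P.MP_5347d0_lc.Dio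

open Finset Polynomial

/-- the abstract part: from one good unit to a unit congruent to one modulo `m` -/
theorem unit_step {B k : Type} [CommRing B] [Field k] {p m : ℕ} (hp : p.Prime) (hp2 : Odd p)
    [CharP k p] (hm : m ≠ 0) (hpm : p ∣ m) (σ : ℕ → B →+* B) (χ : ℕ → k) (L : B →+ k)
    (htf : ∀ a : B, p * a = 0 → a = 0)
    (hfr : ∀ l, l.Prime → l ∣ m → ∀ y, (l : B) ∣ y ^ l - σ l y)
    (hcm : ∀ l, l.Prime → l ∣ m → ∀ y, σ l (σ p y) = σ p (σ l y))
    (hL : ∀ l, l.Prime → l ∣ m → ∀ y, L (σ l y) = χ l * L y)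
    (hχ : ∀ l, l.Prime → l ∣ m → l ≠ p → χ l ≠ l) (hχp : χ p ≠ 1)
    {y₀ d₀ u : B} (hy₀ : IsCoprime y₀ p) (h₀ : Rel p (σ p) y₀ d₀) (hd₀ : L d₀ ≠ 0)
    (hu : IsUnit u) (hu₀ : u * y₀ = σ p y₀) : ∃ d : B, IsUnit (1 + m * d) ∧ L d ≠ 0 := by
  have hn : ∀ (j : ℕ) (d : B), L (j * d) = j * L d := fun j d => by
    rw [← nsmul_eq_mul, map_nsmul, nsmul_eq_mul]
  have hp0 : ∀ d, L (p * d) = 0 := fun d => by rw [hn, CharP.cast_eq_zero, zero_mul]
  have hun : ∀ y : B, IsUnit y → IsCoprime y p := fun y hy => by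
    obtain ⟨v, hv⟩ := hy.exists_left_inv
    exact ⟨v, 0, by rw [hv, zero_mul, add_zero]⟩
  have quot : ∀ y a da db : B, IsUnit y → IsCoprime a p → Rel p (σ p) a da →
      Rel p (σ p) (y * a) db → ∃ d, Rel p (σ p) y d ∧ L d = L db - L da := by
    intro y a da db hy ha h1 h2
    obtain ⟨d, hd⟩ := Rel.ex (hun y hy) (hfr p hp hpm y)
    obtain ⟨c, hc⟩ := (hd.mul h1).uniq htf ((hun y hy).mul_left ha) h2
    have h3 := congrArg L hc
    rw [hp0, map_sub, map_add] at h3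
    exact ⟨d, hd, by linear_combination h3⟩
  have key : ∀ q : ℕ, q ∣ m → ¬ p ∣ q →
      ∃ y, IsUnit y ∧ (q : B) ∣ y - 1 ∧ ∃ d, Rel p (σ p) y d ∧ L d ≠ 0 := by
    intro q
    induction q using induction_on_primes with
    | zero => exact fun _ h => absurd (dvd_zero p) h
    | one =>
      intro _ _
      obtain ⟨d, hd, h1⟩ := quot u y₀ d₀ (σ p d₀) hu hy₀ h₀ (hu₀ ▸ h₀.map (σ p) rfl)
      refine ⟨u, hu, by simp, d, hd, ?_⟩
      rw [h1, hL p hp hpm, ← sub_one_mul]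
      exact mul_ne_zero (sub_ne_zero.2 hχp) hd₀
    | prime_mul l a hl ih =>
      intro h1 h2
      obtain ⟨y, hy, ha, d, hd, hd0⟩ := ih (Dvd.dvd.trans (dvd_mul_left a l) h1)
        fun h => h2 (h.mul_left l)
      have hlm : l ∣ m := (dvd_mul_right l a).trans h1
      have hlp : l ≠ p := fun h => h2 (h ▸ dvd_mul_right l a)
      by_cases hla : l ∣ a
      · refine ⟨y ^ l, hy.pow l, ?_, l * d, hd.pow l, ?_⟩
        · have h3 := dvd_geom_sum₂_self ((Nat.cast_dvd_cast hla).trans ha)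
          have h4 := geom_sum₂_mul y 1 l
          rw [one_pow] at h4
          rw [← h4, Nat.cast_mul]
          exact mul_dvd_mul h3 ha
        · rw [hn]
          refine mul_ne_zero (fun h => hlp ?_) hd0
          exact ((Nat.prime_dvd_prime_iff_eq hp hl).1 ((CharP.cast_eq_zero_iff k p l).1 h)).symm
      · obtain ⟨v, hv⟩ := (hy.map (σ l)).exists_left_inv
        have hv' : IsUnit v := IsUnit.of_mul_eq_one _ hv
        have h3 : y ^ l * v * σ l y = y ^ l := by rw [mul_assoc, hv, mul_one]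
        obtain ⟨d', hd', h4⟩ := quot (y ^ l * v) (σ l y) (σ l d) (l * d) ((hy.pow l).mul hv')
          (hun _ (hy.map _)) (hd.map _ (hcm l hl hlm y)) (by rw [h3]; exact hd.pow l)
        refine ⟨y ^ l * v, (hy.pow l).mul hv', ?_, d', hd', ?_⟩
        · rw [Nat.cast_mul, show y ^ l * v - 1 = (y ^ l - σ l y) * v by linear_combination hv]
          refine Dvd.dvd.mul_right (((Nat.Prime.coprime_iff_not_dvd hl).2 hla).cast.mul_dvd
            (hfr l hl hlm y) ?_) v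
          have h5 := map_dvd (σ l) ha
          rw [map_natCast, map_sub, map_one] at h5
          have h6 := ha.trans (sub_dvd_pow_sub_pow y 1 l)
          rw [one_pow] at h6
          simpa using h6.sub h5
        · rw [h4, hn, hL l hl hlm, ← sub_mul]
          exact mul_ne_zero (sub_ne_zero.2 (hχ l hl hlm hlp).symm) hd0
  obtain ⟨e, q, hq, rfl⟩ := Nat.exists_eq_pow_mul_and_not_dvd hm p hp.ne_one
  obtain ⟨y, hy, ha, d, ⟨c, hc⟩, hd0⟩ := key q (dvd_mul_left _ _) hq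
  obtain ⟨v, hv⟩ := (hy.map (σ p)).exists_left_inv
  have h1 : y ^ p * v = 1 + p * (d + p * (c * v)) := by
    linear_combination v * hc + (1 + p * d) * hv
  obtain ⟨d₁, hd₁⟩ : (q : B) ∣ d + p * (c * v) := by
    refine ((Nat.Prime.coprime_iff_not_dvd hp).2 hq).symm.cast.dvd_of_dvd_mul_left ?_
    rw [show p * (d + p * (c * v)) = (y ^ p - σ p y) * v by linear_combination hv - h1]
    have h5 := map_dvd (σ p) ha
    rw [map_natCast, map_sub, map_one] at h5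
    have h6 := ha.trans (sub_dvd_pow_sub_pow y 1 p)
    rw [one_pow] at h6
    exact Dvd.dvd.mul_right (by simpa using h6.sub h5) v
  have h2 : ∀ j : ℕ, ∃ d, IsUnit (1 + ((p ^ (j + 1) * q : ℕ) : B) * d) ∧ L d ≠ 0 := by
    intro j
    induction j with
    | zero =>
      refine ⟨d₁, ?_, fun h => hd0 ?_⟩
      · rw [zero_add, pow_one, Nat.cast_mul, mul_assoc, ← hd₁, ← h1]
        exact (hy.pow p).mul (IsUnit.of_mul_eq_one _ hv)
      · have h3 := congrArg L hd₁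
        rwa [map_add, hp0, hn, h, mul_zero, add_zero] at h3
    | succ j ih =>
      obtain ⟨d, hd, hd'⟩ := ih
      obtain ⟨c, hc⟩ := pow_step hp2 (s := ((p ^ (j + 1) * q : ℕ) : B))
        (Nat.cast_dvd_cast ((dvd_pow_self p j.succ_ne_zero).mul_right q)) d
      refine ⟨d + p * c, ?_, by rwa [map_add, hp0, add_zero]⟩
      rw [pow_succ' p (j + 1), mul_assoc p, Nat.cast_mul, ← hc]
      exact hd.pow p
  obtain ⟨j, rfl⟩ : ∃ j, e = j + 1 := ⟨e - 1, by
    rcases Nat.eq_zero_or_pos e with rfl | h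
    · exact absurd (by simpa using hpm) hq
    · omega⟩
  exact h2 j

/-- the bound for the level -/
def bnd (f m : ℕ) : ℕ := 2 * m ^ (f + 3).factorial.totient + m +
  m * (f * m ^ (f + 3).factorial.totient) + m ^ m ^ (f + 3).factorial.totient

theorem exists_unit {k : Type} [Field k] [IsAlgClosed k] (p : ℕ) [Fact p.Prime] [CharP k p]
    {f n m : ℕ} (hf : 0 < f) (hf3 : ¬ 3 ∣ f) (hm : m ≠ 0) (hpm : p ∣ m)
    (hco : Nat.Coprime m (f + 3).factorial) (hn : bnd f m ≤ n) (c : Ch k f n)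
    (hcube : ∀ i, c.ψ i * c.θ i + c.ψ (i + f * 3 ^ n) * c.θ (i + f * 3 ^ n) +
      c.ψ (i + 2 * (f * 3 ^ n)) * c.θ (i + 2 * (f * 3 ^ n)) = 0) :
    ∃ Y : ℤ[X], IsUnit (1 + m * aeval (zz (f * 3 ^ n)) Y) ∧
      LZ (fun i => c.ψ i * c.θ i) Y ≠ 0 := by
  have hp : p.Prime := Fact.out
  have hT : 0 < f * 3 ^ n := by positivity
  have hm1 : 1 ≤ m := Nat.pos_of_ne_zero hm
  have hF : ∀ j, 0 < j → j ≤ f + 3 → ∀ l, l ∣ m → Nat.Coprime l j := fun j h1 h2 l hl =>
    (hco.coprime_dvd_left hl).coprime_dvd_right (Nat.dvd_factorial h1 h2)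
  have h3 : ∀ l, l ∣ m → ¬ 3 ∣ l := fun l hl =>
    (Nat.Prime.coprime_iff_not_dvd Nat.prime_three).1 (hF 3 (by omega) (by omega) l hl).symm
  have h2 : ¬ 2 ∣ p :=
    (Nat.Prime.coprime_iff_not_dvd Nat.prime_two).1 (hF 2 (by omega) (by omega) p hpm).symm
  have hp2 : p ≠ 2 := fun h => h2 (h ▸ dvd_rfl)
  have hp3 : p ≠ 3 := fun h => h3 p hpm (h ▸ dvd_rfl)
  have hodd : Odd p := hp.odd_of_ne_two hp2
  unfold bnd at hn
  set E := (f + 3).factorial.totient with hE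
  have hE0 : 0 < E := Nat.totient_pos.2 (Nat.factorial_pos _)
  have hP : p ^ E ≡ 1 [MOD (f + 3).factorial] :=
    Nat.ModEq.pow_totient (hco.coprime_dvd_left hpm)
  have hP1 : 1 < p ^ E := Nat.one_lt_pow hE0.ne' hp.one_lt
  have hψ : ∀ i, c.ψ i ^ p ^ E = c.ψ i := c.psi_pow hf
    (hP.of_dvd (Nat.factorial_dvd_factorial (by omega))) (by omega)
  obtain ⟨a, β', hβ', ha⟩ := Nat.exists_eq_pow_mul_and_not_dvd (n := p ^ E - 1) (by omega) 3
    (by norm_num)
  have hd : ∀ j, 0 < j → j ≤ 3 → j ∣ 3 ^ a * β' := fun j h1 h2 =>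
    ha ▸ (Nat.modEq_iff_dvd' hP1.le).1 (hP.of_dvd (Nat.dvd_factorial h1 (by omega))).symm
  obtain ⟨β, rfl⟩ : 2 ∣ β' := (Nat.Coprime.pow_right a (by norm_num)).dvd_of_dvd_mul_left
    (hd 2 (by omega) (by omega))
  have hβ : ¬ 3 ∣ β := fun h => hβ' (h.mul_left 2)
  have ha1 : 1 ≤ a := by
    rcases Nat.eq_zero_or_pos a with rfl | h
    · exact absurd (by simpa using hd 3 (by omega) le_rfl) hβ'
    · exact h
  have hPe : p ^ E = 1 + 3 ^ a * (2 * β) := by omega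
  have hβ0 : 0 < β := Nat.pos_of_ne_zero (by rintro rfl; simp at hβ)
  have hpm' : p ≤ m := Nat.le_of_dvd hm1 hpm
  have hQ : p ^ E ≤ m ^ E := Nat.pow_le_pow_left hpm' E
  have ha3 : 3 ^ a ≤ m ^ E := by
    have : 3 ^ a ≤ 3 ^ a * (2 * β) := Nat.le_mul_of_pos_right _ (by omega)
    omega
  have ha4 : a < 3 ^ a := Nat.lt_pow_self (by norm_num)
  have hsm : ∀ l, l.Prime → l ∣ m → ∀ r : k, r ≠ 0 → r ^ p ^ E = r → c.ψ l * c.θ l ≠ r := by
    intro l hl hlm r hr hr'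
    refine c.ne_of_small hψ (e := 3 ^ a * β) (by rw [hPe]; ring) (by positivity) hl.two_le
      (h3 l hlm) ?_ hr hr'
    have h5 : l ^ p ^ E ≤ m ^ m ^ E :=
      (Nat.pow_le_pow_left (Nat.le_of_dvd hm1 hlm) _).trans (Nat.pow_le_pow_right hm1 hQ)
    have h6 : n < 3 ^ n := Nat.lt_pow_self (by norm_num)
    omega
  obtain ⟨L, hL⟩ := exists_L hT (χ := fun i => c.ψ i * c.θ i) hcube
  have htf := BB_tf hT hp.ne_zero
  have hy₀ : IsCoprime (1 - zz (f * 3 ^ n)) p := by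
    have h5 : IsCoprime ((3 : ℕ) : BB (f * 3 ^ n)) p := (hF 3 (by omega) (by omega) p hpm).symm.cast
    exact h5.of_isCoprime_of_dvd_left (by exact_mod_cast one_sub_dvd (zz_rel _))
  obtain ⟨d₀, h₀⟩ := Rel.ex hy₀ (sg_frob hp (h3 p hpm) _)
  obtain ⟨Y, rfl⟩ := zz_surj d₀
  have hN : ¬ 3 ∣ f * 3 ^ (n + 1) - 1 := by
    have : 0 < f * 3 ^ n := hT
    rw [pow_succ, ← mul_assoc]
    omega
  have hd₀ : L (aeval (zz (f * 3 ^ n)) Y) ≠ 0 := by
    obtain ⟨r, hr⟩ := exists_add_pow_prime_eq hp (1 : ℤ[X]) (-X)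
    have hq : (1 - X : ℤ[X]) ^ p = 1 - X ^ p + (p : ℤ[X]) * (-X * r) := by
      rw [sub_eq_add_neg, hr, hodd.neg_pow]
      ring
    obtain ⟨A, B, h5⟩ : ∃ A B, (1 - X ^ p) * Y = -X * r + Ph (f * 3 ^ n) * A + (p : ℤ[X]) * B := by
      obtain ⟨w, hw⟩ := h₀
      obtain ⟨W, rfl⟩ := zz_surj w
      have h6 := congrArg (aeval (zz (f * 3 ^ n))) hq
      simp only [map_sub, map_pow, map_one, map_add, map_mul, map_natCast, aeval_X,
        sg_zz (h3 p hpm)] at h6 hw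
      obtain ⟨A, hA⟩ := (zz_ker (T := f * 3 ^ n)
        (Y := (1 - X ^ p) * Y - -X * r + (p : ℤ[X]) * W)).1 (htf _ (by
          simp only [map_sub, map_pow, map_one, map_add, map_mul, map_natCast, aeval_X]
          linear_combination h6 - hw))
      exact ⟨A, -W, by linear_combination hA⟩
    obtain ⟨A', B', h6⟩ : ∃ A' B', expand ℤ (f * 3 ^ (n + 1) - 1) Y =
        Y + Ph (f * 3 ^ n) * A' + (p : ℤ[X]) * B' := by
      have h7 : Rel p (sg (f * 3 ^ n) p) (-zz (f * 3 ^ n) ^ (f * 3 ^ (n + 1) - 1)) 0 :=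
        ⟨0, by rw [hodd.neg_pow, map_neg, map_pow, sg_zz (h3 p hpm), pow_right_comm]; ring⟩
      have h8 := h₀.map (sg (f * 3 ^ n) (f * 3 ^ (n + 1) - 1)) (sg_comm hN (h3 p hpm) _)
      have h9 : -zz (f * 3 ^ n) ^ (f * 3 ^ (n + 1) - 1) * (1 - zz (f * 3 ^ n)) =
          sg (f * 3 ^ n) (f * 3 ^ (n + 1) - 1) (1 - zz (f * 3 ^ n)) := by
        have h10 := zz_three (f * 3 ^ n)
        rw [show 3 * (f * 3 ^ n) = f * 3 ^ (n + 1) - 1 + 1 by
          rw [pow_succ 3 n, ← mul_assoc f]; omega, pow_succ] at h10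
        rw [map_sub, map_one, sg_zz hN]
        linear_combination h10
      have h10 := hy₀.map (sg (f * 3 ^ n) (f * 3 ^ (n + 1) - 1))
      rw [map_natCast] at h10
      obtain ⟨w, hw⟩ := h8.uniq htf h10 (h9 ▸ h7.mul h₀)
      obtain ⟨W, rfl⟩ := zz_surj w
      obtain ⟨A, hA⟩ := (zz_ker (T := f * 3 ^ n)
        (Y := expand ℤ (f * 3 ^ (n + 1) - 1) Y - Y - (p : ℤ[X]) * W)).1 (by
          rw [sg_aeval hN] at hw
          rw [map_sub, map_sub, map_mul, map_natCast, expand_aeval]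
          linear_combination hw)
      exact ⟨A, W, by linear_combination hA⟩
    rw [hL]
    refine c.core p hp2 hp3 hf hf3 (b := n + 1 - a) ha1 (by omega) (by omega) hβ hPe hψ ?_ hq h5 h6
    have h7 : p * (f * 3 ^ a) ≤ m * (f * m ^ E) :=
      Nat.mul_le_mul hpm' (Nat.mul_le_mul_left _ ha3)
    have h8 : n + 1 - a < 3 ^ (n + 1 - a) := Nat.lt_pow_self (by norm_num)
    omega
  obtain ⟨d, hd, hd'⟩ := unit_step hp hodd hm hpm (sg (f * 3 ^ n)) (fun i => c.ψ i * c.θ i)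
    L.toAddMonoidHom htf (fun l hl hlm => sg_frob hl (h3 l hlm))
    (fun l _ hlm => sg_comm (h3 l hlm) (h3 p hpm)) (fun l _ hlm y => by
      obtain ⟨W, rfl⟩ := zz_surj y
      rw [LinearMap.toAddMonoidHom_coe, sg_aeval (h3 l hlm), ← expand_aeval, hL, hL, LZ_expand]
      refine Eq.trans ?_ (map_smul (LF W) (c.ψ l * c.θ l) fun i => c.ψ i * c.θ i)
      refine congrArg (LF W) (funext fun i => ?_)
      simp only [map_mul, Pi.smul_apply, smul_eq_mul]
      ring)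
    (fun l hl hlm hlp => hsm l hl hlm _ (fun h => hlp ((Nat.prime_dvd_prime_iff_eq hp hl).1
      ((CharP.cast_eq_zero_iff k p l).1 h)).symm) (map_natCast (iterateFrobenius k p E) l))
    (hsm p hp hpm 1 one_ne_zero (one_pow _)) hy₀ h₀ hd₀
    (isUnit_geom hT (p := p) ((hF 3 (by omega) (by omega) p hpm).mul_right
      ((hF f hf (by omega) p hpm).mul_right ((hF 3 (by omega) (by omega) p hpm).pow_right n))))
    (by rw [map_sub, map_one, sg_zz (h3 p hpm), geom_sum_mul_neg])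
  obtain ⟨W, rfl⟩ := zz_surj d
  exact ⟨W, hd, hL W ▸ hd'⟩

end Pool.Agent.P.MP_5347d0_lc.Dio
end

-- part Pool.Agent.P.MP_5347d0_lc.DLam
section

/-! The residues of the units congruent to one contain the real cyclotomic integers. -/

namespace Pool.Agent.P.MP_5347d0_lc.Dio

open Finset Polynomial

theorem exists_Ch {k : Type} [Field k] {f n : ℕ} (hf3 : ¬ 3 ∣ f) (hn : 1 ≤ n) (h3 : (3 : k) ≠ 0)
    (χ : ℕ →* k) (per : ∀ i j, i ≡ j [MOD f * 3 ^ (n + 1)] → χ i = χ j) (three : χ 3 = 0)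
    (cube : χ 1 + χ (1 + f * 3 ^ n) + χ (1 + 2 * (f * 3 ^ n)) = 0)
    (even : χ (f * 3 ^ (n + 1) - 1) = 1) : ∃ c : Ch k f n, ∀ i, c.ψ i * c.θ i = χ i := by
  have co : Nat.Coprime f (3 ^ (n + 1)) :=
    (((Nat.Prime.coprime_iff_not_dvd Nat.prime_three).2 hf3).symm).pow_right _
  have per' : ∀ i j, i ≡ j [MOD f] → i ≡ j [MOD 3 ^ (n + 1)] → χ i = χ j := fun i j h1 h2 =>
    per i j ((Nat.modEq_and_modEq_iff_modEq_mul co).1 ⟨h1, h2⟩)
  let r : ℕ → ℕ → ℕ := fun a b => Nat.chineseRemainder co a b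
  have r1 : ∀ a b, r a b ≡ a [MOD f] := fun a b => (Nat.chineseRemainder co a b).2.1
  have r2 : ∀ a b, r a b ≡ b [MOD 3 ^ (n + 1)] := fun a b => (Nat.chineseRemainder co a b).2.2
  have rm : ∀ a b a' b', χ (r (a * a') (b * b')) = χ (r a b) * χ (r a' b') := by
    intro a b a' b'
    rw [← map_mul]
    exact per' _ _ ((r1 _ _).trans ((r1 _ _).mul (r1 _ _)).symm)
      ((r2 _ _).trans ((r2 _ _).mul (r2 _ _)).symm)
  have rd : ∀ a, χ (r a a) = χ a := fun a => per' _ _ (r1 _ _) (r2 _ _)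
  let ψ : ℕ →* k := ⟨⟨fun i => χ (r i 1), by rw [rd, map_one]⟩, fun a b => rm a 1 b 1⟩
  let θ : ℕ →* k := ⟨⟨fun i => χ (r 1 i), by rw [rd, map_one]⟩, fun a b => rm 1 a 1 b⟩
  have hψθ : ∀ i, ψ i * θ i = χ i := fun i => by
    have := rm i 1 1 i
    rw [mul_one, one_mul, rd] at this
    exact this.symm
  have hψ : ∀ i j, i ≡ j [MOD f] → ψ i = ψ j := fun i j h =>
    per' _ _ ((r1 _ _).trans (h.trans (r1 _ _).symm)) ((r2 _ _).trans (r2 _ _).symm)
  have hθ : ∀ i j, i ≡ j [MOD 3 ^ (n + 1)] → θ i = θ j := fun i j h =>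
    per' _ _ ((r1 _ _).trans (r1 _ _).symm) ((r2 _ _).trans (h.trans (r2 _ _).symm))
  refine ⟨⟨ψ, θ, hψ, hθ, ?_, fun β hβ h => ?_, (hψθ _).trans even⟩, hψθ⟩
  · obtain ⟨j, hj⟩ : 3 ∣ r 1 3 :=
      ((r2 1 3).dvd_iff (dvd_pow_self 3 n.succ_ne_zero)).2 dvd_rfl
    change χ (r 1 3) = 0
    rw [hj, map_mul, three, zero_mul]
  · have h1 : ∀ s, θ (1 + 3 ^ n * s) = θ (1 + 3 ^ n * 1) ^ s := fun s => by
      rw [← map_pow, hθ _ _ (pw n 1 s (n + 1) (by omega)), one_mul]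
    have h2 : θ (1 + 3 ^ n * 1) ^ 3 = 1 := by
      rw [← h1, ← pow_succ, hθ _ 1 (Nat.add_mod_right _ _), map_one]
    have h4 : θ (1 + 3 ^ n * 1) = 1 := by
      rw [h1, ← Nat.mod_add_div β 3, pow_add, pow_mul, h2, one_pow, mul_one] at h
      have h5 : β % 3 = 1 ∨ β % 3 = 2 := by omega
      rcases h5 with h5 | h5 <;> rw [h5] at h
      · rwa [pow_one] at h
      · rwa [pow_succ, h, one_mul] at h2
    have h5 : ∀ s, χ (1 + s * (f * 3 ^ n)) = 1 := fun s => by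
      rw [← hψθ, hψ _ 1 (by
        rw [show 1 + s * (f * 3 ^ n) = 1 + f * (s * 3 ^ n) by ring]
        exact Nat.add_mul_mod_self_left _ _ _),
        show 1 + s * (f * 3 ^ n) = 1 + 3 ^ n * (s * f) by ring, h1, h4, one_pow, map_one, one_mul]
    have h6 := h5 1
    rw [one_mul] at h6
    rw [h6, h5 2, map_one] at cube
    exact h3 (by linear_combination cube)

/-- residues modulo `m` of the elements `y` such that `1 + m * y` is a unit -/
def Lam (m : ℕ) (R : Type) [CommRing R] : AddSubgroup R where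
  carrier := {y | ∃ y' : R, IsUnit (1 + m * y') ∧ (m : R) ∣ y - y'}
  zero_mem' := ⟨0, by simp, by simp⟩
  add_mem' := by
    rintro a b ⟨a', ha, c, hc⟩ ⟨b', hb, d, hd⟩
    refine ⟨a' + b' + m * a' * b', ?_, c + d - a' * b', by linear_combination hc + hd⟩
    rw [show 1 + m * (a' + b' + m * a' * b') = (1 + m * a') * (1 + m * b') by ring]
    exact ha.mul hb
  neg_mem' := by
    rintro a ⟨a', ha, c, hc⟩
    obtain ⟨v, hv⟩ := ha.exists_right_inv
    refine ⟨-(a' * v), ?_, -c - a' * a' * v, by linear_combination a' * hv - hc⟩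
    rw [show 1 + m * -(a' * v) = v by linear_combination -hv]
    exact IsUnit.of_mul_eq_one_right _ hv

theorem Lam_map {m : ℕ} {R S : Type} [CommRing R] [CommRing S] (σ : R →+* S) {y : R}
    (h : y ∈ Lam m R) : σ y ∈ Lam m S := by
  obtain ⟨y', h1, h2⟩ := h
  refine ⟨σ y', by simpa using h1.map σ, by simpa using map_dvd σ h2⟩

theorem Lam_mul {m : ℕ} {R : Type} [CommRing R] (y : R) : m * y ∈ Lam m R :=
  ⟨0, by simp, by simp⟩

theorem lam_main {f n m : ℕ} (hf : 0 < f) (hf3 : ¬ 3 ∣ f) (hm : m ≠ 0)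
    (hco : Nat.Coprime m (f + 3).factorial) (hn : bnd f m ≤ n) {j : ℕ} (hj : ¬ 3 ∣ j) :
    zz (f * 3 ^ n) ^ j + (zz (f * 3 ^ n) ^ (f * 3 ^ (n + 1) - 1)) ^ j ∈
      Lam m (BB (f * 3 ^ n)) := by
  have hn1 : 1 ≤ n := by
    have : 1 ≤ m := Nat.pos_of_ne_zero hm
    unfold bnd at hn
    omega
  have hm3 : Nat.Coprime 3 m :=
    (hco.coprime_dvd_right (Nat.dvd_factorial (by omega) (by omega))).symm
  set T := f * 3 ^ n with hT
  have hT0 : 0 < T := by positivity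
  have hT3 : 3 ∣ T := (dvd_pow_self 3 (by omega)).mul_left f
  have hN : f * 3 ^ (n + 1) = 3 * T := by rw [hT]; ring
  set N := f * 3 ^ (n + 1) - 1 with hN1
  have hN3 : ¬ 3 ∣ N := by omega
  have hZ : zz T ^ N * zz T = 1 := by
    rw [← pow_succ, show N + 1 = 3 * T by omega, zz_three]
  let s : ℕ →* AddMonoid.End (BB T) :=
    { toFun := fun b => if 3 ∣ b then 0 else (sg T b).toAddMonoidHom
      map_one' := by
        rw [if_neg (by norm_num)]
        refine AddMonoidHom.ext fun y => ?_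
        obtain ⟨Y, rfl⟩ := zz_surj y
        exact (sg_aeval (by norm_num) Y).trans (by rw [pow_one]; rfl)
      map_mul' := fun a b => by
        by_cases ha : 3 ∣ a
        · rw [if_pos ha, if_pos (ha.mul_right b), zero_mul]
        by_cases hb : 3 ∣ b
        · rw [if_pos hb, if_pos (hb.mul_left a), mul_zero]
        rw [if_neg ha, if_neg hb, if_neg (not_dvd_mul ha hb)]
        exact AddMonoidHom.ext fun y => (sg_mul ha hb y).symm }
  let A := MonoidAlgebra.lift ℤ (AddMonoid.End (BB T)) ℕ s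
  let o := MonoidAlgebra.of ℤ ℕ
  have hA : ∀ φ, ∀ y ∈ Lam m (BB T), A φ y ∈ Lam m (BB T) := by
    intro φ y hy
    induction φ using MonoidAlgebra.induction_on with
    | of b =>
      rw [MonoidAlgebra.lift_of]
      change (if 3 ∣ b then (0 : AddMonoid.End (BB T)) else (sg T b).toAddMonoidHom) y ∈ _
      split_ifs
      · exact zero_mem _
      · exact Lam_map _ hy
    | add a b ha hb => rw [map_add]; exact add_mem ha hb
    | smul r a ha => rw [map_smul]; exact zsmul_mem ha r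
  let e : BB T := 3 * (zz T + zz T ^ N)
  have hw : ∀ i, A (o i) e = if 3 ∣ i then 0 else 3 * (zz T ^ i + (zz T ^ N) ^ i) := by
    intro i
    rw [MonoidAlgebra.lift_of]
    change (if 3 ∣ i then (0 : AddMonoid.End (BB T)) else (sg T i).toAddMonoidHom) e = _
    split_ifs with h
    · rfl
    · change sg T i (3 * (zz T + zz T ^ N)) = _
      rw [map_mul, map_add, map_pow, sg_zz h, map_ofNat, pow_right_comm]
  let I : Ideal (MonoidAlgebra ℤ ℕ) :=
    { carrier := {φ | A φ e ∈ Lam m (BB T)}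
      add_mem' := fun {a b} ha hb => by
        change A (a + b) e ∈ Lam m (BB T)
        rw [map_add]
        exact add_mem ha hb
      zero_mem' := by
        change A 0 e ∈ Lam m (BB T)
        rw [map_zero]
        exact zero_mem _
      smul_mem' := fun a b hb => by
        change A (a * b) e ∈ Lam m (BB T)
        rw [map_mul A]
        exact hA a _ hb }
  by_cases hI : I = ⊤
  · have h1 : A (o j) e ∈ Lam m (BB T) := (hI ▸ Submodule.mem_top : o j ∈ I)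
    rw [hw, if_neg hj] at h1
    obtain ⟨u, v, huv⟩ : IsCoprime ((3 : ℕ) : ℤ) m := hm3.cast
    have h2 := add_mem (zsmul_mem h1 u) (Lam_mul (m := m) (v * (zz T ^ j + (zz T ^ N) ^ j)))
    have h3 := congrArg (Int.cast : ℤ → BB T) huv
    push_cast at h3
    rwa [zsmul_eq_mul, show (u : BB T) * (3 * (zz T ^ j + (zz T ^ N) ^ j)) +
      m * (v * (zz T ^ j + (zz T ^ N) ^ j)) = zz T ^ j + (zz T ^ N) ^ j by
        linear_combination (zz T ^ j + (zz T ^ N) ^ j) * h3] at h2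
  exfalso
  obtain ⟨M, hM, hIM⟩ := Ideal.exists_le_maximal I hI
  let _ := Ideal.Quotient.field M
  let k := AlgebraicClosure (MonoidAlgebra ℤ ℕ ⧸ M)
  let π : MonoidAlgebra ℤ ℕ →+* k :=
    (algebraMap (MonoidAlgebra ℤ ℕ ⧸ M) k).comp (Ideal.Quotient.mk M)
  have hπ : ∀ φ, A φ e ∈ Lam m (BB T) → π φ = 0 := fun φ h => by
    rw [RingHom.comp_apply, Ideal.Quotient.eq_zero_iff_mem.2 (hIM h), map_zero]
  have hπ' : ∀ φ φ', A φ e = A φ' e → π φ = π φ' := fun φ φ' h => by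
    rw [← sub_eq_zero, ← map_sub]
    refine hπ _ ?_
    rw [map_sub]
    change A φ e - A φ' e ∈ _
    rw [h, sub_self]
    exact zero_mem _
  let χ : ℕ →* k := π.toMonoidHom.comp o
  have hmk : (m : k) = 0 := by
    rw [← map_natCast π]
    refine hπ _ ?_
    rw [map_natCast, AddMonoid.End.natCast_apply, nsmul_eq_mul]
    exact Lam_mul e
  have := ringChar.charP k
  have hpm := (CharP.cast_eq_zero_iff k (ringChar k) m).1 hmk
  have : Fact (ringChar k).Prime := ⟨(CharP.char_is_prime_or_zero k _).resolve_right fun h =>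
    hm (by rwa [h, zero_dvd_iff] at hpm)⟩
  have h3 : (3 : k) ≠ 0 := fun h => this.out.ne_one (Nat.eq_one_of_dvd_coprimes hm3
    ((CharP.cast_eq_zero_iff k (ringChar k) 3).1 (by exact_mod_cast h)) hpm)
  have hcube : ∀ i, χ i + χ (i + T) + χ (i + 2 * T) = 0 := by
    intro i
    refine Eq.trans (by rw [map_add π, map_add π]; rfl) (hπ (o i + o (i + T) + o (i + 2 * T)) ?_)
    rw [map_add, map_add]
    change A (o i) e + A (o (i + T)) e + A (o (i + 2 * T)) e ∈ _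
    rw [hw, hw, hw]
    by_cases hi : 3 ∣ i
    · rw [if_pos hi, if_pos (by omega), if_pos (by omega), add_zero, add_zero]
      exact zero_mem _
    · have h1 := cube_pow (zz_rel T) hN3
      rw [pow_right_comm _ T N] at h1
      rw [if_neg hi, if_neg (by omega), if_neg (by omega), show 3 * (zz T ^ i + (zz T ^ N) ^ i) +
        3 * (zz T ^ (i + T) + (zz T ^ N) ^ (i + T)) +
        3 * (zz T ^ (i + 2 * T) + (zz T ^ N) ^ (i + 2 * T)) = 0 by
          linear_combination 3 * zz T ^ i * zz_rel T + 3 * (zz T ^ N) ^ i * h1]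
      exact zero_mem _
  obtain ⟨c, hc⟩ := exists_Ch hf3 hn1 h3 χ (fun a b h => hπ' _ _ (by
      have h1 : zz T ^ a = zz T ^ b := by
        rw [hN] at h
        rw [pow_eq_pow_mod a (zz_three T), h, ← pow_eq_pow_mod b (zz_three T)]
      rw [hw, hw, pow_right_comm _ N a, pow_right_comm _ N b, h1]
      exact if_congr (h.dvd_iff ⟨T, hN⟩) rfl rfl))
    (hπ _ (by rw [hw, if_pos dvd_rfl]; exact zero_mem _)) (hcube 1)
    ((hπ' _ (o 1) (by
      have h1 : (zz T ^ N) ^ N = zz T := by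
        have h2 : (zz T ^ N) ^ N * zz T ^ N = 1 := by rw [← mul_pow, hZ, one_pow]
        linear_combination zz T * h2 - (zz T ^ N) ^ N * hZ
      rw [hw, hw, if_neg hN3, if_neg (by norm_num), h1, pow_one, pow_one, add_comm])).trans
      (map_one χ))
  obtain ⟨Y, hY, hY0⟩ := exists_unit (ringChar k) hf hf3 hm hpm hco hn c fun i => by
    rw [hc, hc, hc]; exact hcube i
  have h1 : ¬ 3 ∣ 1 + T := by omega
  have h2 : ¬ 3 ∣ 1 + 2 * T := by omega
  let D : BB T → BB T := fun d => d + d - sg T (1 + T) d - sg T (1 + 2 * T) d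
  have key : ∀ Y : ℤ[X], ∃ φ, π φ = LZ (fun i => c.ψ i * c.θ i) Y ∧
      A φ e = D (aeval (zz T) Y) + sg T N (D (aeval (zz T) Y)) := by
    intro Y
    induction Y using Polynomial.induction_on' with
    | add a b ha hb =>
      obtain ⟨φ, h3, h4⟩ := ha
      obtain ⟨φ', h5, h6⟩ := hb
      refine ⟨φ + φ', by rw [map_add, map_add, h3, h5], ?_⟩
      rw [map_add]
      change A φ e + A φ' e = _
      simp only [h4, h6, D, map_add, map_sub]
      ring
    | monomial i a =>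
      refine ⟨a • o i, by rw [LZ_monomial, hc, map_zsmul, zsmul_eq_mul]; rfl, ?_⟩
      have h3 : D (aeval (zz T) (monomial i a)) = a * if 3 ∣ i then 0 else 3 * zz T ^ i := by
        simp only [D, aeval_monomial, eq_intCast, map_mul, map_intCast, map_pow, sg_zz h1, sg_zz h2]
        split_ifs with hi
        · obtain ⟨l, rfl⟩ := hi
          have h4 : (zz T ^ (3 * T)) ^ l = 1 := by rw [zz_three, one_pow]
          linear_combination -(a * zz T ^ (3 * l) * (2 + (zz T ^ (3 * T)) ^ l)) * h4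
        · linear_combination -(a * zz T ^ i) * cube_pow (zz_rel T) hi
      rw [map_zsmul, h3]
      change a • A (o i) e = _
      rw [hw, zsmul_eq_mul]
      split_ifs
      · simp
      · rw [map_mul, map_mul, map_intCast, map_pow, sg_zz hN3, map_ofNat]
        ring
  obtain ⟨φ, h3, h4⟩ := key Y
  have h5 : aeval (zz T) Y ∈ Lam m (BB T) := ⟨_, hY, by rw [sub_self]; exact dvd_zero _⟩
  have h6 : D (aeval (zz T) Y) ∈ Lam m (BB T) :=
    sub_mem (sub_mem (add_mem h5 h5) (Lam_map _ h5)) (Lam_map _ h5)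
  exact hY0 (h3 ▸ hπ φ (h4 ▸ add_mem h6 (Lam_map _ h6)))

/-- the form used later -/
theorem lam_mem {R : Type} [CommRing R] {f n m : ℕ} (hf : 0 < f) (hf3 : ¬ 3 ∣ f) (hm : m ≠ 0)
    (hco : Nat.Coprime m (f + 3).factorial) (hn : bnd f m ≤ n) {z z' : R} (hz' : z * z' = 1)
    (hz : (z ^ (f * 3 ^ n)) ^ 2 + z ^ (f * 3 ^ n) + 1 = 0) {j : ℕ} (hj : ¬ 3 ∣ j) :
    z ^ j + z' ^ j ∈ Lam m R := by
  obtain ⟨σ, hσ⟩ := exists_hom hz
  have h1 := Lam_map σ (lam_main hf hf3 hm hco hn hj)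
  have h2 := congrArg σ (zz_three (f * 3 ^ n))
  have h3 : 0 < f * 3 ^ n := by positivity
  rw [map_pow, map_one, hσ, show 3 * (f * 3 ^ n) = f * 3 ^ (n + 1) - 1 + 1 by
    rw [pow_succ 3 n, ← mul_assoc f]; omega, pow_succ] at h2
  rwa [map_add, map_pow, map_pow, map_pow, hσ, show z ^ (f * 3 ^ (n + 1) - 1) = z' by
    linear_combination z' * h2 - z ^ (f * 3 ^ (n + 1) - 1) * hz'] at h1

end Pool.Agent.P.MP_5347d0_lc.Dio
end

-- part Pool.Agent.P.MP_5347d0_lc.DReal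
section

/-! The system of equations and its soundness. -/

namespace Pool.Agent.P.MP_5347d0_lc.Dio

open NumberField IntermediateField Finset
open scoped ComplexConjugate

section ring

variable {R : Type} [CommRing R]

/-- three equations that force `z` to be real and are solvable for natural `z` -/
def r1 (z k w u v s t : R) : List R :=
  [(1 + 3 * ((4 * z ^ 2 - 1) * k)) * u - 1,
    (1 + 3 * ((4 * z ^ 2 - 1) * k * (z - 3 * ((4 * z ^ 2 - 1) * k) * w))) * v - 1,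
    3 * ((4 * z ^ 2 - 1) * k) * s - (2 * t - 1) * (3 * t - 1)]

/-- the remaining equations -/
def r2 (x M t m s k y u v w a b s' t' : R) : List R :=
  [m - (t ^ 2 + 4) * s, m - (4 * (M * x) ^ 2 - 1) * k, y * u + m * v - 1, (1 + m * y) * a - 1,
    (1 + m * (y * (M * x) - m * w)) * b - 1, M * m * s' - (2 * t' - 1) * (3 * t' - 1)]

/-- the whole system -/
def eqs (x : R) (y : Fin 31 → R) : List R :=
  r1 (y 0) (y 1) (y 2) (y 3) (y 4) (y 5) (y 6) ++ r1 (y 7) (y 8) (y 9) (y 10) (y 11) (y 12) (y 13) ++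
    r1 (y 14) (y 15) (y 16) (y 17) (y 18) (y 19) (y 20) ++
    r2 x (y 0) (y 7) (y 14) (y 21) (y 22) (y 23) (y 24) (y 25) (y 26) (y 27) (y 28) (y 29) (y 30)

/-- one expression for a list -/
def comb (l : List R) : R := l.foldr (fun a b => a ^ 3 - 2 * b ^ 3) 0

theorem comb_map {S : Type} [CommRing S] (σ : R →+* S) (l : List R) :
    σ (comb l) = comb (l.map σ) := by
  induction l with
  | nil => simp [comb]
  | cons a l ih =>
    simp only [comb, List.foldr_cons, List.map_cons, map_sub, map_mul, map_pow, map_ofNat] at ih ⊢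
    rw [ih]

theorem eqs_map {S : Type} [CommRing S] (σ : R →+* S) (x : R) (y : Fin 31 → R) :
    (eqs x y).map σ = eqs (σ x) fun i => σ (y i) := by
  simp only [eqs, r1, r2, List.map_append, List.map_cons, List.map_nil, map_sub, map_mul, map_pow,
    map_add, map_one, map_ofNat]

theorem comb_eq_zero [IsDomain R] (h : ∀ a b : R, a ^ 3 = 2 * b ^ 3 → b = 0) (l : List R) :
    comb l = 0 ↔ ∀ a ∈ l, a = 0 := by
  induction l with
  | nil => simp [comb]
  | cons a l ih =>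
    rw [List.forall_mem_cons, ← ih]
    change a ^ 3 - 2 * comb l ^ 3 = 0 ↔ _
    refine ⟨fun h1 => ?_, fun h1 => by simp [h1.1, h1.2]⟩
    have h2 := h _ _ (sub_eq_zero.1 h1)
    rw [h2] at h1
    exact ⟨by simpa using h1, h2⟩

theorem nz_int {N : ℕ} (hN : N ≠ 0) : ∃ s t : ℤ, N * s = (2 * t - 1) * (3 * t - 1) := by
  obtain ⟨a, B, hB, rfl⟩ := Nat.exists_eq_pow_mul_and_not_dvd hN 2 (by norm_num)
  have h1 : Nat.Coprime 2 B := (Nat.Prime.coprime_iff_not_dvd Nat.prime_two).2 hB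
  obtain ⟨α, α', h2⟩ : IsCoprime ((2 * 2 ^ a : ℕ) : ℤ) B := (h1.mul_left (h1.pow_left a)).cast
  obtain ⟨β, β', h3⟩ : IsCoprime ((3 * B : ℕ) : ℤ) (2 ^ a : ℕ) :=
    ((Nat.Coprime.mul_left (by norm_num) h1.symm).pow_right a).cast
  refine ⟨(2 * β - α') * (3 * α - β'), 2 ^ a * α + B * β, ?_⟩
  push_cast at h2 h3 ⊢
  rw [show 2 * (2 ^ a * α + B * β) - 1 = B * (2 * β - α') by linear_combination h2,
    show 3 * (2 ^ a * α + B * β) - 1 = 2 ^ a * (3 * α - β') by linear_combination h3]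
  ring

theorem nz_of_dvd {y : R} {N : ℤ} (hN : N ≠ 0) (h : y ∣ N) :
    ∃ s t : R, y * s - (2 * t - 1) * (3 * t - 1) = 0 := by
  obtain ⟨s, t, h1⟩ := nz_int (Int.natAbs_ne_zero.2 hN)
  obtain ⟨c, hc⟩ := h.trans (map_dvd (Int.castRingHom R) (Int.dvd_natAbs.2 dvd_rfl))
  have h2 := congrArg (Int.castRingHom R) h1
  simp only [map_mul, map_sub, map_one, map_ofNat] at h2
  exact ⟨c * Int.castRingHom R s, Int.castRingHom R t, by
    linear_combination h2 - Int.castRingHom R s * hc⟩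

theorem r1_nat {r : R} (hr : r * r = 2) (n : ℕ) :
    ∃ k w u v s t : R, ∀ e ∈ r1 (n : R) k w u v s t, e = 0 := by
  obtain ⟨K, hK⟩ : ∃ K : ℤ, K = 3 * (4 * n ^ 2 - 1) := ⟨_, rfl⟩
  have hK0 : K ≠ 0 := by omega
  obtain ⟨x, y, hxy, hy⟩ := Pell.exists_of_not_isSquare (d := 2 * K ^ 2) (by positivity) (by
    rintro ⟨j, hj⟩
    obtain ⟨i, rfl⟩ : K ∣ j := (Int.pow_dvd_pow_iff two_ne_zero).1 ⟨2, by linear_combination -hj⟩
    exact Int.prime_two.not_isSquare ⟨i, mul_left_cancel₀ (pow_ne_zero 2 hK0)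
      (by linear_combination hj)⟩)
  have h1 := congrArg (Int.cast : ℤ → R) hxy
  have h2 := congrArg (Int.cast : ℤ → R) hK
  push_cast at h1 h2
  obtain ⟨κ, hκ⟩ : ∃ κ : R, κ = 2 * y * (2 * K * y + x * r) := ⟨_, rfl⟩
  have h3 : (1 + K * κ) * (x - K * y * r) ^ 2 = 1 := by
    rw [show 1 + K * κ = (x + K * y * r) ^ 2 by
      rw [hκ]; linear_combination -h1 - (K * y) ^ 2 * hr, ← mul_pow,
      show (x + K * y * r) * (x - K * y * r) = 1 by linear_combination h1 - (K * y) ^ 2 * hr,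
      one_pow]
  obtain ⟨s, t, h4⟩ := nz_of_dvd (y := K * κ) (N := -4 * y * K) (by simp [hy, hK0])
    ⟨2 * K * y - x * r, by
      push_cast
      rw [hκ]
      linear_combination 4 * K * y * h1 + 2 * K * y * x ^ 2 * hr⟩
  obtain ⟨w, hw⟩ : K * κ ∣ n - ∑ i ∈ range n, (1 + K * κ) ^ i := by
    rw [show (n : R) = ∑ _i ∈ range n, 1 by simp, ← sum_sub_distrib]
    refine dvd_sum fun i _ => ?_
    have h5 := sub_dvd_pow_sub_pow (1 + K * κ) 1 i
    rw [add_sub_cancel_left, one_pow] at h5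
    exact dvd_sub_comm.1 h5
  have h5 := mul_geom_sum (1 + K * κ) n
  refine ⟨κ, w, (x - K * y * r) ^ 2, ((x - K * y * r) ^ 2) ^ n, s, t, ?_⟩
  simp only [r1, List.forall_mem_cons, List.not_mem_nil, false_imp_iff, implies_true, and_true]
  have h6 : 3 * ((4 * (n : R) ^ 2 - 1) * κ) = K * κ := by rw [h2]; ring
  refine ⟨by rw [h6, h3, sub_self], ?_, by rw [h6, h4]⟩
  rw [← mul_assoc, h6, show 1 + K * κ * (n - K * κ * w) = (1 + K * κ) ^ n by
    linear_combination h5 + K * κ * hw, ← mul_pow, h3, one_pow, sub_self]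

theorem strip {y : R} {F : ℕ} (hy : IsCoprime y F) (N : ℕ) (hN : N ≠ 0) (h : y ∣ N) :
    ∃ N' : ℕ, N' ≠ 0 ∧ Nat.Coprime N' F ∧ y ∣ N' := by
  induction N using Nat.strong_induction_on with
  | h N ih =>
    by_cases hc : Nat.Coprime N F
    · exact ⟨N, hN, hc, h⟩
    obtain ⟨l, hl, ⟨N', rfl⟩, h2⟩ := Nat.Prime.not_coprime_iff_dvd.1 hc
    have h0 : N' ≠ 0 := right_ne_zero_of_mul hN
    refine ih N' (lt_mul_left (Nat.pos_of_ne_zero h0) hl.one_lt) h0 ?_
    rw [Nat.cast_mul] at h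
    exact (hy.of_isCoprime_of_dvd_right (Nat.cast_dvd_cast h2)).dvd_of_dvd_mul_left h

end ring

variable {L : Type} [Field L] [CharZero L] [Algebra.IsAlgebraic ℚ L]

theorem lemA (β : 𝓞 L) (h : ∀ ψ : L →ₐ[ℚ] ℂ, ‖ψ (β : L)‖ < 1) : β = 0 := by
  by_contra hβ
  have : NumberField ℚ⟮(β : L)⟯ :=
    { to_charZero := inferInstance
      to_finiteDimensional :=
        IntermediateField.adjoin.finiteDimensional (Algebra.IsIntegral.isIntegral _) }
  let b : ℚ⟮(β : L)⟯ := AdjoinSimple.gen ℚ (β : L)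
  have hb0 : b ≠ 0 := fun h0 =>
    hβ (RingOfIntegers.ext (show (b : L) = 0 by rw [h0]; rfl))
  have hbi : IsIntegral ℤ b :=
    (isIntegral_algHom_iff ((ℚ⟮(β : L)⟯).val.restrictScalars ℤ) Subtype.val_injective).1
      β.isIntegral_coe
  have hlt : ∀ φ : ℚ⟮(β : L)⟯ →+* ℂ, ‖φ b‖ < 1 := by
    intro φ
    have : Algebra.IsAlgebraic ℚ⟮(β : L)⟯ L := Algebra.IsAlgebraic.tower_top (K := ℚ) _
    obtain ⟨ψ, hψ⟩ := IsAlgClosed.surjective_domRestrict_of_isAlgebraic (K := ℚ)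
      (L := ℚ⟮(β : L)⟯) (M := ℂ) (E := L) φ.toRatAlgHom
    have h1 : ψ (β : L) = φ b := congrArg (fun g : ℚ⟮(β : L)⟯ →ₐ[ℚ] ℂ => g b) hψ
    exact h1 ▸ h ψ
  obtain ⟨n, hn, hpow⟩ := NumberField.Embeddings.pow_eq_one_of_norm_le_one _ ℂ hb0 hbi
    (fun φ => (hlt φ).le)
  let φ : ℚ⟮(β : L)⟯ →+* ℂ := Classical.choice inferInstance
  have h1 : ‖φ b‖ ^ n = 1 := by rw [← norm_pow, ← map_pow, hpow, map_one, norm_one]
  exact absurd h1 (pow_lt_one₀ (norm_nonneg _) (hlt φ) hn.ne').ne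

/-- the abstract setting: an integral domain with a conjugation and complex points -/
structure Cj (O : Type) [CommRing O] where
  σ : O →+* O
  pt : Set (O →+* ℂ)
  ne : pt.Nonempty
  inj : ∀ ψ ∈ pt, Function.Injective ψ
  cj : ∀ ψ ∈ pt, ∀ x, ψ (σ x) = conj (ψ x)
  small : ∀ β, (∀ ψ ∈ pt, ‖ψ β‖ < 1) → β = 0

variable {O : Type} [CommRing O] [IsDomain O] (c : Cj O)

omit [IsDomain O] in
theorem Cj.unit {q a v : O} (hq : c.σ q = q) (hq2 : ∀ ψ ∈ c.pt, 2 < ‖ψ q‖)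
    (hv : (1 + q * a) * v - 1 = 0) : c.σ a = a := by
  have hv' := congrArg c.σ hv
  simp only [map_sub, map_mul, map_add, map_one, map_zero, hq] at hv'
  have hβ : (a - c.σ a) * c.σ v = 0 := by
    refine c.small _ fun ψ hψ => ?_
    have h1 : (1 + q * a) * c.σ v - 1 = q * ((a - c.σ a) * c.σ v) := by linear_combination hv'
    have h2 := congrArg (fun z => ‖ψ z‖) h1
    have h3 := congrArg (fun z => ‖ψ z‖) (sub_eq_zero.1 hv)
    simp only [map_mul ψ, norm_mul, map_one, norm_one] at h3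
    have h4 := norm_sub_le (ψ ((1 + q * a) * c.σ v)) 1
    simp only [map_sub ψ _ 1, map_one, map_mul ψ q, norm_mul] at h2
    rw [h2, map_mul ψ (1 + q * a), norm_mul, c.cj ψ hψ v, Complex.norm_conj, h3, norm_one] at h4
    by_contra h5
    nlinarith [hq2 ψ hψ]
  linear_combination (a - c.σ a) * hv' - (1 + q * c.σ a) * hβ

omit [IsDomain O] in
theorem Cj.core {z : O} (h : 4 * z ^ 2 - 1 ∣ z - c.σ z) : c.σ z = z := by
  obtain ⟨β, hβ⟩ := h
  by_cases h0 : 4 * z ^ 2 - 1 = 0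
  · rw [h0, zero_mul] at hβ
    exact (sub_eq_zero.1 hβ).symm
  have h1 : β = 0 := by
    refine c.small _ fun ψ hψ => ?_
    have h2 : 0 < ‖ψ (4 * z ^ 2 - 1)‖ := norm_pos_iff.2 ((map_ne_zero_iff ψ (c.inj ψ hψ)).2 h0)
    have h3 := congrArg (fun z => ‖ψ z‖) hβ
    simp only [map_mul ψ _ β, norm_mul, map_sub ψ z, c.cj ψ hψ] at h3
    have h4 : (2 * ‖ψ z - conj (ψ z)‖) ^ 2 ≤ ‖ψ (4 * z ^ 2 - 1)‖ ^ 2 := by
      rw [mul_pow, Complex.sq_norm, Complex.sq_norm, map_sub ψ, map_mul ψ, map_pow ψ, map_one,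
        map_ofNat]
      simp only [Complex.normSq_apply, pow_two, Complex.sub_re, Complex.sub_im, Complex.conj_re,
        Complex.conj_im, Complex.mul_re, Complex.mul_im, Complex.re_ofNat, Complex.im_ofNat,
        Complex.one_re, Complex.one_im]
      nlinarith [sq_nonneg (4 * ((ψ z).re ^ 2 + (ψ z).im ^ 2) - 1)]
    have h5 := (pow_le_pow_iff_left₀ (by positivity) h2.le two_ne_zero).1 h4
    by_contra h6
    nlinarith
  rw [h1, mul_zero] at hβ
  exact (sub_eq_zero.1 hβ).symm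

include c in
theorem Cj.nz {y s t : O} (h : y * s - (2 * t - 1) * (3 * t - 1) = 0) : y ≠ 0 := by
  rintro rfl
  have h1 : ∀ n : ℕ, 2 ≤ n → (n : O) * t - 1 ≠ 0 := by
    intro n hn h2
    have h3 : t = 0 := by
      refine c.small _ fun ψ _ => ?_
      have h3 := congrArg (fun z => ‖ψ z‖) (sub_eq_zero.1 h2)
      simp only [map_mul, norm_mul, map_natCast, Complex.norm_natCast, map_one, norm_one] at h3
      have h4 : (2 : ℝ) ≤ n := by exact_mod_cast hn
      by_contra h5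
      nlinarith
    simp [h3] at h2
  rw [zero_mul, zero_sub, neg_eq_zero, mul_eq_zero] at h
  rcases h with h | h
  · exact h1 2 le_rfl (by exact_mod_cast h)
  · exact h1 3 (by norm_num) (by exact_mod_cast h)

theorem Cj.r1 {z k w u v s t : O} (h : ∀ e ∈ r1 z k w u v s t, e = 0) : c.σ z = z := by
  simp only [Dio.r1, List.forall_mem_cons] at h
  obtain ⟨h1, h2, h3, -⟩ := h
  have h4 : ∀ ψ ∈ c.pt, 2 < ‖ψ 3‖ := fun ψ _ => by rw [map_ofNat]; norm_num
  have h5 := c.unit (map_ofNat _ 3) h4 h1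
  have h6 := c.unit (map_ofNat _ 3) h4 h2
  have h7 : (4 * z ^ 2 - 1) * k ≠ 0 := right_ne_zero_of_mul (c.nz h3)
  rw [map_mul, h5, map_sub, map_mul, map_mul, h5, map_ofNat] at h6
  exact c.core ⟨3 * k * (w - c.σ w), by linear_combination -mul_left_cancel₀ h7 h6⟩

theorem Cj.sound {x : O} {y : Fin 31 → O} (h : ∀ e ∈ eqs x y, e = 0) : c.σ x = x := by
  simp only [eqs, List.forall_mem_append] at h
  obtain ⟨⟨⟨hM, ht⟩, hm⟩, h⟩ := h
  have hM := c.r1 hM
  have ht := c.r1 ht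
  have hm := c.r1 hm
  simp only [r2, List.forall_mem_cons] at h
  obtain ⟨h1, h2, h3, h4, h5, h6, -⟩ := h
  generalize y 0 = M at *
  generalize y 7 = t at *
  generalize y 14 = m at *
  have h0 := c.nz h6
  have hq : c.σ (t ^ 2 + 4) = t ^ 2 + 4 := by rw [map_add, map_pow, ht, map_ofNat]
  have hq2 : ∀ ψ ∈ c.pt, 2 < ‖ψ (t ^ 2 + 4)‖ := by
    intro ψ hψ
    have e1 := c.cj ψ hψ t
    rw [ht, eq_comm, Complex.conj_eq_iff_im] at e1
    refine lt_of_lt_of_le ?_ (Complex.re_le_norm _)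
    rw [map_add, map_pow, map_ofNat]
    simp only [pow_two, Complex.add_re, Complex.mul_re, e1, Complex.re_ofNat]
    nlinarith [sq_nonneg (ψ t).re]
  have key : ∀ a v, (1 + m * a) * v - 1 = 0 → c.σ a = a := by
    intro a v hv
    have e1 := c.unit (a := y 21 * a) (v := v) hq hq2 (by linear_combination hv - a * v * h1)
    have e2 := congrArg c.σ (show m * a = (t ^ 2 + 4) * (y 21 * a) by linear_combination a * h1)
    rw [map_mul, map_mul c.σ (t ^ 2 + 4), hq, e1, hm] at e2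
    exact mul_left_cancel₀ (right_ne_zero_of_mul h0) (by linear_combination e2 - a * h1)
  have e1 := key _ _ h4
  have e2 := key _ _ h5
  rw [map_sub, map_mul, map_mul c.σ m, e1, hm] at e2
  have e3 := c.core (z := M * x) ⟨y 22 * (y 24 * (y 26 - c.σ (y 26)) +
    y 25 * (M * x - c.σ (M * x))), by
      linear_combination (y 24 * (y 26 - c.σ (y 26)) + y 25 * (M * x - c.σ (M * x))) * h2 -
        (M * x - c.σ (M * x)) * h3 - y 24 * e2⟩
  rw [map_mul, hM] at e3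
  exact mul_left_cancel₀ (left_ne_zero_of_mul h0) e3

end Pool.Agent.P.MP_5347d0_lc.Dio
end

-- part Pool.Agent.P.MP_5347d0_lc.DComp
section

/-! Solvability of the system at real points. -/

namespace Pool.Agent.P.MP_5347d0_lc.Dio

open Finset Polynomial
open scoped ComplexConjugate

variable {O : Type} [CommRing O]

theorem Cj.cube (c : Cj O) (hint : ∀ a b : O, a ^ 3 = 2 * b ^ 3 → b ≠ 0 → b ∣ a) (a b : O)
    (h : a ^ 3 = 2 * b ^ 3) : b = 0 := by
  by_contra hb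
  obtain ⟨α, rfl⟩ := hint a b h hb
  have h1 : ∀ ψ ∈ c.pt, ∃ r : ℝ, r ^ 3 = 4 ∧ 0 ≤ r ∧ ψ (α * c.σ α) = r := by
    intro ψ hψ
    have h2 : ψ b ≠ 0 := (map_ne_zero_iff ψ (c.inj ψ hψ)).2 hb
    have h3 := congrArg ψ h
    simp only [map_mul, map_pow, map_ofNat] at h3
    have h4 : ψ α ^ 3 = 2 := mul_left_cancel₀ (pow_ne_zero 3 h2) (by linear_combination h3)
    have h5 := congrArg Complex.normSq h4
    rw [map_pow, Complex.normSq_ofNat] at h5
    exact ⟨_, h5.trans (by norm_num), Complex.normSq_nonneg _, by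
      rw [map_mul, c.cj ψ hψ, Complex.mul_conj]⟩
  have h2 : α * c.σ α - 2 = 0 := by
    refine c.small _ fun ψ hψ => ?_
    obtain ⟨r, h3, h4, h5⟩ := h1 ψ hψ
    rw [map_sub, h5, map_ofNat, show (r : ℂ) - 2 = (r - 2 : ℝ) by push_cast; rfl, Complex.norm_real,
      Real.norm_eq_abs, abs_lt]
    constructor <;> by_contra h6 <;> nlinarith [sq_nonneg r, mul_self_nonneg (r - 1)]
  obtain ⟨ψ, hψ⟩ := c.ne
  obtain ⟨r, h3, -, h5⟩ := h1 ψ hψ
  rw [sub_eq_zero.1 h2, map_ofNat] at h5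
  have h6 : r = 2 := by exact_mod_cast h5.symm
  rw [h6] at h3
  norm_num at h3

theorem lam_sym {m : ℕ} {z z' : O} (hz : z * z' = 1)
    (h : ∀ j, ¬ 3 ∣ j → z ^ j + z' ^ j ∈ Lam m O) (Y : ℤ[X]) :
    (z + z') * (aeval (z ^ 3) Y + aeval (z' ^ 3) Y) ∈ Lam m O := by
  induction Y using Polynomial.induction_on' with
  | add a b ha hb =>
    rw [map_add, map_add, add_add_add_comm, mul_add]
    exact add_mem ha hb
  | monomial i a =>
    simp only [aeval_monomial, eq_intCast]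
    rw [← mul_add, mul_left_comm, ← zsmul_eq_mul]
    refine zsmul_mem ?_ a
    rcases i with _ | i
    · have h1 := h 1 (by norm_num)
      rw [pow_one, pow_one] at h1
      rw [pow_zero, pow_zero, mul_add, mul_one]
      exact add_mem h1 h1
    · rw [show (z + z') * ((z ^ 3) ^ (i + 1) + (z' ^ 3) ^ (i + 1)) =
        z ^ (3 * i + 4) + z' ^ (3 * i + 4) + (z ^ (3 * i + 2) + z' ^ (3 * i + 2)) by
          linear_combination (z ^ (3 * i + 2) + z' ^ (3 * i + 2)) * hz]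
      exact add_mem (h _ (by omega)) (h _ (by omega))

theorem complete (σ : O →+* O) {r : O} (hr : r * r = 2)
    (halg : ∀ y : O, y ≠ 0 → ∃ N : ℕ, N ≠ 0 ∧ y ∣ N) (h2 : ∀ y : O, 4 * y ^ 2 - 1 ≠ 0)
    {x : O} (hx : σ x = x) {f M : ℕ} (hf : 0 < f) (hf3 : ¬ 3 ∣ f) (hM : M ≠ 0)
    (h : ∀ n₀, ∃ n, n₀ ≤ n ∧ ∃ z z' : O, z * z' = 1 ∧ σ z = z' ∧
      (z ^ (f * 3 ^ n)) ^ 2 + z ^ (f * 3 ^ n) + 1 = 0 ∧ ∃ Y : ℤ[X], M * x = aeval (z ^ 3) Y) :
    ∃ y : Fin 31 → O, ∀ e ∈ eqs x y, e = 0 := by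
  obtain ⟨F, hF⟩ : ∃ F, F = (f + 3).factorial := ⟨_, rfl⟩
  have hF0 : F ≠ 0 := hF ▸ Nat.factorial_ne_zero _
  obtain ⟨M', hM'⟩ : ∃ M', M' = 2 * M * F := ⟨_, rfl⟩
  have hM0 : M' ≠ 0 := by rw [hM']; positivity
  obtain ⟨N₁, hN₁, hd₁⟩ := halg _ (h2 (M' * x))
  obtain ⟨N, hN, hNF, k, hk⟩ := strip (y := 4 * (M' * x) ^ 2 - 1) (F := F)
    ⟨-1, 4 * (2 * M * x) ^ 2 * F, by rw [hM']; push_cast; ring⟩ N₁ hN₁ hd₁
  obtain ⟨a, t, ht, hat⟩ := Nat.exists_eq_pow_mul_and_not_dvd hF0 2 (by norm_num)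
  have ht2 : Nat.Coprime t 2 := ((Nat.Prime.coprime_iff_not_dvd Nat.prime_two).2 ht).symm
  have hq : Nat.Coprime (t ^ 2 + 4) F := by
    rw [hat]
    refine Nat.Coprime.mul_right (Nat.Coprime.pow_right a ?_) ?_
    · rw [show 4 = 2 * 2 from rfl, Nat.coprime_add_mul_right_left]
      exact ht2.pow_left 2
    · rw [add_comm, pow_two, Nat.coprime_add_mul_right_left]
      exact ht2.symm.pow_left 2
  obtain ⟨m, hm⟩ : ∃ m, m = (t ^ 2 + 4) * N := ⟨_, rfl⟩
  have hm0 : m ≠ 0 := by rw [hm]; positivity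
  have hco : Nat.Coprime m (f + 3).factorial := by rw [hm, ← hF]; exact hq.mul_left hNF
  obtain ⟨n, hn, z, z', hz, hσ, hrel, Y, hY⟩ := h (bnd f m)
  have hL := fun j hj => lam_mem (j := j) hf hf3 hm0 hco hn hz hrel hj
  obtain ⟨y, hy, w₀, hw₀⟩ := hL 1 (by norm_num)
  obtain ⟨y', hy', w₁, hw₁⟩ := nsmul_mem (lam_sym hz hL Y) F
  have hY' := congrArg σ hY
  rw [map_mul, map_natCast, hx, hom_aeval, map_pow, hσ] at hY'
  rw [← hY, ← hY', nsmul_eq_mul] at hw₁
  rw [pow_one, pow_one] at hw₀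
  obtain ⟨u, hu⟩ : z + z' ∣ 3 := by
    refine Dvd.dvd.trans ⟨z, by linear_combination -hz⟩
      (one_sub_dvd (z := -z ^ 2) (T := 2 * (f * 3 ^ n)) ?_)
    rw [pow_mul, neg_sq, ← pow_mul z 2 2, pow_right_comm z (2 * 2)]
    exact cube_pow (b := 2 * 2) hrel (by norm_num)
  obtain ⟨α, β, hαβ⟩ : IsCoprime ((3 : ℕ) : O) m :=
    (hco.coprime_dvd_right (Nat.dvd_factorial (by omega) (by omega))).symm.cast
  obtain ⟨a₀, ha₀⟩ := hy.exists_right_inv
  obtain ⟨a₁, ha₁⟩ := hy'.exists_right_inv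
  obtain ⟨s', t', hst⟩ := nz_of_dvd (y := (M' : O) * m) (N := (M' * m : ℕ))
    (by exact_mod_cast mul_ne_zero hM0 hm0) (by push_cast; exact dvd_rfl)
  obtain ⟨b1, b2, b3, b4, b5, b6, hb⟩ := r1_nat hr M'
  obtain ⟨c1, c2, c3, c4, c5, c6, hc⟩ := r1_nat hr t
  obtain ⟨d1, d2, d3, d4, d5, d6, hd⟩ := r1_nat hr m
  have h3 : ∀ e ∈ r2 x M' t m N ((t ^ 2 + 4) * k) y (α * u) (β + α * u * w₀)
      (w₁ - w₀ * (M' * x)) a₀ a₁ s' t', e = 0 := by
    have e1 := congrArg (Nat.cast : ℕ → O) hm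
    have e2 := congrArg (Nat.cast : ℕ → O) hM'
    push_cast at e1 e2 hαβ
    simp only [r2, List.forall_mem_cons, List.not_mem_nil, false_imp_iff, implies_true, and_true]
    refine ⟨sub_eq_zero.2 e1, by linear_combination e1 + (t ^ 2 + 4) * hk,
      by linear_combination hαβ - α * hu - α * u * hw₀, sub_eq_zero.2 ha₀, ?_, hst⟩
    rw [show y * (M' * x) - m * (w₁ - w₀ * (M' * x)) = y' by
      linear_combination hw₁ - M' * x * hw₀ + (z + z') * x * e2, ha₁, sub_self]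
  refine ⟨![M', b1, b2, b3, b4, b5, b6, t, c1, c2, c3, c4, c5, c6, m, d1, d2, d3, d4, d5, d6,
    N, (t ^ 2 + 4) * k, y, α * u, β + α * u * w₀, w₁ - w₀ * (M' * x), a₀, a₁, s', t'], ?_⟩
  simp only [eqs, List.forall_mem_append]
  exact ⟨⟨⟨hb, hc⟩, hd⟩, h3⟩

end Pool.Agent.P.MP_5347d0_lc.Dio
end

-- part Pool.Agent.P.MP_5347d0_lc.DMain
section

/-! The real cyclotomic integers form a Diophantine set. -/

namespace Pool.Agent.P.MP_5347d0_lc.Dio

open NumberField Finset Polynomial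
open scoped ComplexConjugate

theorem root_int {z : ℂ} (h : ∃ n : ℕ, 0 < n ∧ z ^ n = 1) : IsIntegral ℤ z := by
  obtain ⟨n, hn, h⟩ := h
  exact IsIntegral.of_pow hn (h ▸ isIntegral_one)

theorem root_conj {z : ℂ} {n : ℕ} (h : z ^ (n + 1) = 1) : conj z = z ^ n := by
  rw [← Complex.inv_eq_conj (Complex.norm_eq_one_of_pow_eq_one h n.succ_ne_zero)]
  exact inv_eq_of_mul_eq_one_left (by rwa [← pow_succ])

instance : Algebra.IsAlgebraic ℚ Qcyc :=
  IntermediateField.isAlgebraic_adjoin fun _ h => (root_int h).tower_top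

theorem conj_mem {z : ℂ} (hz : z ∈ Qcyc) : conj z ∈ Qcyc := by
  have h : Qcyc ≤ Qcyc.comap (starRingEnd ℂ).toRatAlgHom := by
    refine IntermediateField.adjoin_le_iff.2 ?_
    rintro z ⟨n, hn, h⟩
    exact IntermediateField.subset_adjoin ℚ _
      ⟨n, hn, by change conj z ^ n = 1; rw [← map_pow, h, map_one]⟩
  exact h hz

/-- complex conjugation -/
noncomputable def cQ : Qcyc →+* Qcyc :=
  ((starRingEnd ℂ).comp Qcyc.val.toRingHom).codRestrict Qcyc.toSubalgebra.toSubring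
    fun z => conj_mem z.2

theorem cQ_comm (ψ : Qcyc →ₐ[ℚ] ℂ) (x : Qcyc) : ψ (cQ x) = conj (ψ x) := by
  have h : ψ.comp cQ.toRatAlgHom = (starRingEnd ℂ).toRatAlgHom.comp ψ := by
    refine IntermediateField.adjoin_algHom_ext ℚ ?_
    rintro z ⟨n, hn, h⟩
    obtain ⟨n, rfl⟩ : ∃ j, n = j + 1 := ⟨n - 1, by omega⟩
    let w : Qcyc := ⟨z, IntermediateField.subset_adjoin ℚ _ ⟨n + 1, hn, h⟩⟩
    have h1 : w ^ (n + 1) = 1 := Subtype.ext h
    have h2 : cQ w = w ^ n := Subtype.ext (root_conj h)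
    change ψ (cQ w) = conj (ψ w)
    rw [h2, map_pow, root_conj (n := n) (by rw [← map_pow, h1, map_one])]
  exact DFunLike.congr_fun h x

/-- the inclusion -/
noncomputable def io : 𝓞 Qcyc →+* ℂ := Qcyc.val.toRingHom.comp (algebraMap (𝓞 Qcyc) Qcyc)

theorem io_inj : Function.Injective io :=
  Qcyc.val.toRingHom.injective.comp RingOfIntegers.coe_injective

/-- the setting -/
noncomputable def cjQ : Cj (𝓞 Qcyc) where
  σ := RingOfIntegers.mapRingHom cQ
  pt := Set.range fun ψ : Qcyc →ₐ[ℚ] ℂ => ψ.toRingHom.comp (algebraMap (𝓞 Qcyc) Qcyc)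
  ne := ⟨_, Qcyc.val, rfl⟩
  inj := by
    rintro _ ⟨ψ, rfl⟩
    exact ψ.toRingHom.injective.comp RingOfIntegers.coe_injective
  cj := by
    rintro _ ⟨ψ, rfl⟩ x
    exact cQ_comm ψ x
  small := fun β h => lemA β fun ψ => h _ ⟨ψ, rfl⟩

theorem io_cj (x : 𝓞 Qcyc) : io (cjQ.σ x) = conj (io x) := rfl

theorem lift_root {z : ℂ} (h : ∃ n : ℕ, 0 < n ∧ z ^ n = 1) : ∃ w, io w = z :=
  ⟨⟨⟨z, IntermediateField.subset_adjoin ℚ _ h⟩,
    (isIntegral_algHom_iff (Qcyc.val.restrictScalars ℤ) Subtype.val_injective).1 (root_int h)⟩, rfl⟩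

theorem level {x : ℂ} (hx : x ∈ Qcyc) : ∃ N M : ℕ, N ≠ 0 ∧ M ≠ 0 ∧ ∀ (K : ℕ) (z : ℂ), K ≠ 0 →
    N ∣ K → IsPrimitiveRoot z K → ∃ Y : ℤ[X], M * x = aeval z Y := by
  have h : x ∈ Algebra.adjoin ℚ {z : ℂ | ∃ n : ℕ, 0 < n ∧ z ^ n = 1} := by
    rw [← IntermediateField.adjoin_toSubalgebra_of_isAlgebraic
      (S := {z : ℂ | ∃ n : ℕ, 0 < n ∧ z ^ n = 1}) fun _ h => (root_int h).tower_top.isAlgebraic]
    exact hx
  clear hx
  induction h using Algebra.adjoin_induction with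
  | mem x hx =>
    obtain ⟨n, hn, h⟩ := hx
    refine ⟨n, 1, hn.ne', one_ne_zero, ?_⟩
    rintro _ z h0 ⟨j, rfl⟩ hz
    have : NeZero (n * j) := ⟨h0⟩
    obtain ⟨i, -, hi⟩ := hz.eq_pow_of_pow_eq_one (ξ := x) (by rw [pow_mul, h, one_pow])
    exact ⟨X ^ i, by simp [hi]⟩
  | algebraMap q =>
    refine ⟨1, q.den, one_ne_zero, q.den_nz, fun K z _ _ _ => ⟨C q.num, ?_⟩⟩
    have h := congrArg (Rat.cast : ℚ → ℂ) (Rat.den_mul_eq_num q)
    rw [Rat.cast_mul, Rat.cast_natCast, Rat.cast_intCast] at h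
    simpa using h
  | add x y _ _ hx hy =>
    obtain ⟨N, M, h1, h2, h3⟩ := hx
    obtain ⟨N', M', h4, h5, h6⟩ := hy
    refine ⟨N * N', M * M', mul_ne_zero h1 h4, mul_ne_zero h2 h5, fun K z h0 hK hz => ?_⟩
    obtain ⟨Y, hY⟩ := h3 K z h0 ((dvd_mul_right _ _).trans hK) hz
    obtain ⟨Y', hY'⟩ := h6 K z h0 ((dvd_mul_left _ _).trans hK) hz
    refine ⟨M' * Y + M * Y', ?_⟩
    rw [map_add, map_mul, map_mul, map_natCast, map_natCast, ← hY, ← hY', Nat.cast_mul]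
    ring
  | mul x y _ _ hx hy =>
    obtain ⟨N, M, h1, h2, h3⟩ := hx
    obtain ⟨N', M', h4, h5, h6⟩ := hy
    refine ⟨N * N', M * M', mul_ne_zero h1 h4, mul_ne_zero h2 h5, fun K z h0 hK hz => ?_⟩
    obtain ⟨Y, hY⟩ := h3 K z h0 ((dvd_mul_right _ _).trans hK) hz
    obtain ⟨Y', hY'⟩ := h6 K z h0 ((dvd_mul_left _ _).trans hK) hz
    refine ⟨Y * Y', ?_⟩
    rw [map_mul, ← hY, ← hY', Nat.cast_mul]
    ring

theorem exists_sqrt_two : ∃ s : 𝓞 Qcyc, s * s = 2 := by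
  have hζ := Complex.isPrimitiveRoot_exp 8 (by norm_num)
  obtain ⟨w, hw⟩ := lift_root ⟨8, by norm_num, hζ.pow_eq_one⟩
  rw [← hw] at hζ
  have h4 : io w ^ 4 = -1 :=
    (hζ.pow (by norm_num) (show 8 = 4 * 2 by norm_num)).eq_neg_one_of_two_right
  refine ⟨w + w ^ 7, io_inj ?_⟩
  rw [map_mul, map_add, map_pow, map_ofNat]
  linear_combination (io w ^ 10 - io w ^ 6 + 2 * io w ^ 4 + io w ^ 2 - 2) * h4

theorem solvable {x : 𝓞 Qcyc} (hx : cjQ.σ x = x) :
    ∃ y : Fin 31 → 𝓞 Qcyc, ∀ e ∈ eqs x y, e = 0 := by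
  obtain ⟨r, hr⟩ := exists_sqrt_two
  obtain ⟨N, M, hN, hM, h⟩ := level (x : Qcyc).2
  obtain ⟨s, f, hf3, rfl⟩ := Nat.exists_eq_pow_mul_and_not_dvd hN 3 (by norm_num)
  have hf : 0 < f := Nat.pos_of_ne_zero (right_ne_zero_of_mul hN)
  refine complete cjQ.σ hr (fun y hy => ?_) (fun y hy => ?_) hx hf hf3 hM fun n₀ => ?_
  · obtain ⟨a, ha, h1⟩ := (Algebra.IsIntegral.isIntegral (R := ℤ) y).isAlgebraic.exists_nonzero_dvd
      (mem_nonZeroDivisors_of_ne_zero hy)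
    exact ⟨a.natAbs, Int.natAbs_ne_zero.2 ha,
      h1.trans (map_dvd (algebraMap ℤ (𝓞 Qcyc)) (Int.dvd_natAbs.2 dvd_rfl))⟩
  · have h1 : y = 0 := by
      refine cjQ.small _ fun ψ _ => ?_
      have h2 := congrArg (fun z => ‖ψ z‖) (sub_eq_zero.1 hy)
      simp only [map_mul, map_pow, norm_mul, norm_pow, map_ofNat, map_one, norm_one,
        Complex.norm_ofNat] at h2
      by_contra h3
      nlinarith
    simp [h1] at hy
  · refine ⟨n₀ + s, le_self_add, ?_⟩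
    have hT : 0 < f * 3 ^ (n₀ + s) := by positivity
    have hd : 3 ^ s * f ∣ f * 3 ^ (n₀ + s) := ⟨3 ^ n₀, by ring⟩
    generalize f * 3 ^ (n₀ + s) = T at hT hd
    have hζ := Complex.isPrimitiveRoot_exp (3 * T) (by omega)
    obtain ⟨z, hz⟩ := lift_root ⟨3 * T, by omega, hζ.pow_eq_one⟩
    rw [← hz] at hζ
    obtain ⟨Y, hY⟩ := h T _ hT.ne' hd (hζ.pow (by omega) rfl)
    refine ⟨z, cjQ.σ z, io_inj ?_, rfl, io_inj ?_, Y, io_inj ?_⟩
    · rw [map_mul, io_cj, Complex.mul_conj', hζ.norm'_eq_one (by omega)]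
      simp
    · have h1 := (hζ.pow (by omega) (mul_comm 3 T)).geom_sum_eq_zero (by norm_num)
      simp only [sum_range_succ, range_zero, sum_empty] at h1
      simp only [map_add, map_pow, map_one, map_zero]
      linear_combination h1
    · rw [hom_aeval, map_pow, ← hY, map_mul, map_natCast]
      rfl

theorem no_cube (a b : 𝓞 Qcyc) (h : a ^ 3 = 2 * b ^ 3) : b = 0 := by
  refine cjQ.cube (fun a b h hb => ?_) a b h
  have hb' : (b : Qcyc) ≠ 0 := fun h0 => hb (RingOfIntegers.ext h0)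
  have h1 : ((a : Qcyc) / b) ^ 3 = algebraMap ℤ Qcyc 2 := by
    have h2 := congrArg (algebraMap (𝓞 Qcyc) Qcyc) h
    simp only [map_mul, map_pow, map_ofNat] at h2
    rw [div_pow, div_eq_iff (pow_ne_zero 3 hb'), map_ofNat]
    exact h2
  refine ⟨⟨(a : Qcyc) / b, IsIntegral.of_pow (by norm_num) (h1 ▸ isIntegral_algebraMap)⟩,
    RingOfIntegers.ext ?_⟩
  exact (mul_div_cancel₀ _ hb').symm

theorem main : ∃ (n : ℕ) (F : MvPolynomial (Option (Fin n)) ℤ), ∀ a : 𝓞 Qcyc,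
    ((algebraMap (𝓞 Qcyc) Qcyc a : Qcyc) : ℂ).im = 0 ↔
      ∃ y : Fin n → 𝓞 Qcyc, MvPolynomial.aeval (fun o : Option (Fin n) => o.elim a y) F = 0 := by
  refine ⟨31, comb (eqs (MvPolynomial.X none) fun i => MvPolynomial.X (some i)), fun a => ?_⟩
  have h1 : ∀ y : Fin 31 → 𝓞 Qcyc, MvPolynomial.aeval (fun o : Option (Fin 31) => o.elim a y)
      (comb (eqs (MvPolynomial.X none : MvPolynomial (Option (Fin 31)) ℤ)
        fun i => MvPolynomial.X (some i))) = comb (eqs a y) := by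
    intro y
    have h2 := comb_map (MvPolynomial.aeval (R := ℤ)
      (fun o : Option (Fin 31) => o.elim a y)).toRingHom
      (eqs (MvPolynomial.X none) fun i => MvPolynomial.X (some i))
    rw [eqs_map] at h2
    simpa using h2
  simp only [h1, comb_eq_zero no_cube]
  rw [← Complex.conj_eq_iff_im]
  exact ⟨fun h => solvable (io_inj h), fun ⟨y, h⟩ => congrArg io (cjQ.sound h)⟩

end Pool.Agent.P.MP_5347d0_lc.Dio
end
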